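import Mathlib.ModelTheory.Satisfiability
import Mathlib.ModelTheory.Definability
import Mathlib.ModelTheory.ElementaryMaps
import Mathlib.ModelTheory.Encoding
import Mathlib.Tactic

/-!
# Countable categoricity from finitely many orbits, and a criterion for its failure
-/

open FirstOrder FirstOrder.Language Cardinal

namespace Pool.Agent.Lib.MP_b29b59_lc

variable {L : FirstOrder.Language.{0, 0}}

/-- The tuples `v` and `w` satisfy the same formulas. -/
def TypeEq (L : FirstOrder.Language.{0, 0}) {M N : Type} [L.Structure M] [L.Structure N] {n : ℕ}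
    (v : Fin n → M) (w : Fin n → N) : Prop :=
  ∀ φ : L.Formula (Fin n), φ.Realize v ↔ φ.Realize w

theorem TypeEq.symm {M N : Type} [L.Structure M] [L.Structure N] {n : ℕ} {v : Fin n → M}
    {w : Fin n → N} (h : TypeEq L v w) : TypeEq L w v := fun φ => (h φ).symm

/-- The automorphism group of `M` has finitely many orbits on `n`-tuples, for all `n`. -/
def FinOrbits (L : FirstOrder.Language.{0, 0}) (M : Type) [L.Structure M] : Prop :=
  ∀ n, ∃ R : Set (Fin n → M), R.Finite ∧ ∀ v : Fin n → M, ∃ g : M ≃[L] M, (g ∘ v) ∈ R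

/-- Existential quantification of the variable `0`. -/
noncomputable def exFm {n : ℕ} (φ : L.Formula (Fin (n + 1))) : L.Formula (Fin n) :=
  (φ.relabel (Fin.cases (Sum.inr 0) Sum.inl : Fin (n + 1) → Fin n ⊕ Fin 1)).iExs (Fin 1)

theorem realize_exFm {M : Type} [L.Structure M] {n : ℕ} (φ : L.Formula (Fin (n + 1)))
    (v : Fin n → M) :
    (exFm φ).Realize v ↔ ∃ a : M, φ.Realize (Fin.cons a v : Fin (n + 1) → M) := by
  have key : ∀ i : Fin 1 → M, (Sum.elim v i ∘
      (Fin.cases (Sum.inr 0) Sum.inl : Fin (n + 1) → Fin n ⊕ Fin 1)) = Fin.cons (i 0) v := by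
    intro i
    funext j
    refine Fin.cases ?_ (fun j => ?_) j
    · rfl
    · rfl
  rw [exFm, Formula.realize_iExs]
  constructor
  · rintro ⟨i, hi⟩
    rw [Formula.realize_relabel, key] at hi
    exact ⟨i 0, hi⟩
  · rintro ⟨a, ha⟩
    refine ⟨fun _ => a, ?_⟩
    rw [Formula.realize_relabel, key]
    exact ha

theorem realize_all_transfer {M N : Type} [L.Structure M] [L.Structure N]
    (h : M ≅[L] N) {n : ℕ} (φ : L.Formula (Fin n)) (hM : ∀ v : Fin n → M, φ.Realize v)
    (w : Fin n → N) : φ.Realize w := by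
  let ψ : L.Sentence := (φ.relabel (Sum.inr : Fin n → Empty ⊕ Fin n)).iAlls (Fin n)
  have h1 : M ⊨ ψ := by
    show Formula.Realize _ _
    rw [Formula.realize_iAlls]
    intro i
    rw [Formula.realize_relabel]
    exact hM _
  have h2 : N ⊨ ψ := (elementarilyEquivalent_iff.1 h ψ).1 h1
  have h3 : Formula.Realize ψ (default : Empty → N) := h2
  rw [Formula.realize_iAlls] at h3
  have h4 := h3 w
  rw [Formula.realize_relabel] at h4
  exact h4

/-- A formula isolating the type of a tuple. -/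
theorem exists_isolating {M : Type} [L.Structure M] (h : FinOrbits L M) {n : ℕ}
    (v : Fin n → M) : ∃ χ : L.Formula (Fin n), χ.Realize v ∧
      ∀ u : Fin n → M, χ.Realize u → TypeEq L u v := by
  classical
  obtain ⟨R, hR, hv⟩ := h n
  have hsep : ∀ r : Fin n → M, ∃ φ : L.Formula (Fin n), φ.Realize v ∧
      (φ.Realize r → TypeEq L r v) := by
    intro r
    by_cases hr : TypeEq L r v
    · exact ⟨⊤, by simp, fun _ => hr⟩
    · simp only [TypeEq, not_forall] at hr
      obtain ⟨φ, hφ⟩ := hr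
      by_cases h1 : φ.Realize v
      · refine ⟨φ, h1, fun h2 => absurd (iff_of_true h2 h1) hφ⟩
      · refine ⟨φ.not, ?_, fun h2 => ?_⟩
        · rw [Formula.realize_not]; exact h1
        · rw [Formula.realize_not] at h2
          exact absurd (iff_of_false h2 h1) hφ
  choose f hf1 hf2 using hsep
  let l : List (L.Formula (Fin n)) := hR.toFinset.toList.map f
  refine ⟨l.foldr (· ⊓ ·) ⊤, ?_, ?_⟩
  · rw [Formula.Realize, BoundedFormula.realize_foldr_inf]
    intro φ hφ
    simp only [l, List.mem_map] at hφ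
    obtain ⟨r, _, rfl⟩ := hφ
    exact hf1 r
  · intro u hu
    rw [Formula.Realize, BoundedFormula.realize_foldr_inf] at hu
    obtain ⟨g, hg⟩ := hv u
    have hgu : ∀ φ : L.Formula (Fin n), φ.Realize (g ∘ u) ↔ φ.Realize u := fun φ =>
      StrongHomClass.realize_formula g φ
    have h1 : (f (g ∘ u)).Realize u := by
      refine hu _ ?_
      simp only [l, List.mem_map]
      exact ⟨g ∘ u, by simpa using hg, rfl⟩
    have h2 := hf2 (g ∘ u) ((hgu _).2 h1)
    exact fun φ => (hgu φ).symm.trans (h2 φ)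

theorem TypeEq.of_isolating {M N : Type} [L.Structure M] [L.Structure N] (h : M ≅[L] N) {n : ℕ}
    {χ : L.Formula (Fin n)} {v : Fin n → M} (hχ : ∀ u : Fin n → M, χ.Realize u → TypeEq L u v)
    {w : Fin n → N} (hw : χ.Realize w) : TypeEq L v w := by
  have key : ∀ φ : L.Formula (Fin n), φ.Realize v → φ.Realize w := by
    intro φ hφ
    have h1 : ∀ u : Fin n → M, (χ.imp φ).Realize u := by
      intro u
      rw [Formula.realize_imp]
      intro hu
      exact (hχ u hu φ).2 hφ
    have h2 := realize_all_transfer h _ h1 w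
    rw [Formula.realize_imp] at h2
    exact h2 hw
  intro φ
  refine ⟨key φ, fun h1 => ?_⟩
  by_contra h2
  have h3 := key φ.not (by rw [Formula.realize_not]; exact h2)
  rw [Formula.realize_not] at h3
  exact h3 h1

theorem TypeEq.forth {M N : Type} [L.Structure M] [L.Structure N] (hf : FinOrbits L M)
    (h : M ≅[L] N) {n : ℕ} {v : Fin n → M} {w : Fin n → N} (hvw : TypeEq L v w) (a : M) :
    ∃ b : N, TypeEq L (Fin.cons a v : Fin (n + 1) → M) (Fin.cons b w : Fin (n + 1) → N) := by
  obtain ⟨χ, h1, h2⟩ := exists_isolating hf (Fin.cons a v : Fin (n + 1) → M)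
  have h3 : (exFm χ).Realize v := (realize_exFm χ v).2 ⟨a, h1⟩
  obtain ⟨b, hb⟩ := (realize_exFm χ w).1 ((hvw _).1 h3)
  exact ⟨b, TypeEq.of_isolating h h2 hb⟩

theorem TypeEq.back {M N : Type} [L.Structure M] [L.Structure N] (hf : FinOrbits L M)
    (h : M ≅[L] N) {n : ℕ} {v : Fin n → M} {w : Fin n → N} (hvw : TypeEq L v w) (b : N) :
    ∃ a : M, TypeEq L (Fin.cons a v : Fin (n + 1) → M) (Fin.cons b w : Fin (n + 1) → N) := by
  classical
  obtain ⟨R, hR, hv⟩ := hf (n + 1)
  choose χ hχ1 hχ2 using fun r : Fin (n + 1) → M => exists_isolating hf r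
  let l : List (L.Formula (Fin (n + 1))) := hR.toFinset.toList.map χ
  have h1 : ∀ u : Fin (n + 1) → M, (l.foldr (· ⊔ ·) ⊥).Realize u := by
    intro u
    obtain ⟨g, hg⟩ := hv u
    show BoundedFormula.Realize (l.foldr (· ⊔ ·) ⊥ : L.BoundedFormula (Fin (n + 1)) 0) u default
    rw [BoundedFormula.realize_foldr_sup]
    refine ⟨χ (g ∘ u), ?_, ?_⟩
    · simp only [l, List.mem_map]
      exact ⟨g ∘ u, by simpa using hg, rfl⟩
    · exact (StrongHomClass.realize_formula g (χ (g ∘ u))).1 (hχ1 (g ∘ u))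
  have h2 := realize_all_transfer h _ h1 (Fin.cons b w : Fin (n + 1) → N)
  have h3 : BoundedFormula.Realize (l.foldr (· ⊔ ·) ⊥ : L.BoundedFormula (Fin (n + 1)) 0)
    (Fin.cons b w : Fin (n + 1) → N) default := h2
  rw [BoundedFormula.realize_foldr_sup] at h3
  obtain ⟨φ, hφ, hφ'⟩ := h3
  simp only [l, List.mem_map] at hφ
  obtain ⟨r, _, rfl⟩ := hφ
  have h4 : (exFm (χ r)).Realize w := (realize_exFm _ _).2 ⟨b, hφ'⟩
  obtain ⟨a, ha⟩ := (realize_exFm _ _).1 ((hvw _).2 h4)
  refine ⟨a, fun φ => ?_⟩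
  exact (hχ2 r _ ha φ).trans (TypeEq.of_isolating h (hχ2 r) hφ' φ)

/-- A back-and-forth construction. -/
theorem exists_equiv_of_finOrbits {M N : Type} [L.Structure M] [L.Structure N] [Countable M]
    [Countable N] [Nonempty M] [Nonempty N] (hf : FinOrbits L M) (h : M ≅[L] N) :
    Nonempty (M ≃[L] N) := by
  let S := Σ n : ℕ, {p : (Fin n → M) × (Fin n → N) // TypeEq L p.1 p.2}
  let le : S → S → Prop := fun s t => ∀ i : Fin s.1, ∃ j : Fin t.1,
    t.2.1.1 j = s.2.1.1 i ∧ t.2.1.2 j = s.2.1.2 i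
  have le_trans' : ∀ s t u, le s t → le t u → le s u := by
    intro s t u h1 h2 i
    obtain ⟨j, hj1, hj2⟩ := h1 i
    obtain ⟨k, hk1, hk2⟩ := h2 j
    exact ⟨k, hk1.trans hj1, hk2.trans hj2⟩
  have hstep : ∀ (s : S) (t : M × N), ∃ s' : S, le s s' ∧ (∃ i, s'.2.1.1 i = t.1) ∧
      (∃ i, s'.2.1.2 i = t.2) := by
    rintro ⟨n, ⟨v, w⟩, hvw⟩ ⟨a, b⟩
    obtain ⟨b', hb'⟩ := hvw.forth hf h a
    obtain ⟨a', ha'⟩ := hb'.back hf h b
    refine ⟨⟨n + 2, ⟨_, _⟩, ha'⟩, ?_, ⟨1, ?_⟩, ⟨0, ?_⟩⟩
    · intro i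
      refine ⟨i.succ.succ, ?_, ?_⟩
      · rfl
      · rfl
    · rfl
    · rfl
  choose st hst using hstep
  obtain ⟨en, hen⟩ : ∃ en : ℕ → M × N, Function.Surjective en := exists_surjective_nat _
  have h0 : TypeEq L (Fin.elim0 : Fin 0 → M) (Fin.elim0 : Fin 0 → N) := by
    have key : ∀ {M N : Type} [L.Structure M] [L.Structure N], (M ≅[L] N) →
        ∀ φ : L.Formula (Fin 0), φ.Realize (Fin.elim0 : Fin 0 → M) →
        φ.Realize (Fin.elim0 : Fin 0 → N) := by
      intro M N _ _ h φ hφ
      refine realize_all_transfer h φ (fun v => ?_) _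
      have : v = Fin.elim0 := funext fun i => i.elim0
      rw [this]; exact hφ
    exact fun φ => ⟨key h φ, key h.symm φ⟩
  let G : ℕ → S := fun n => Nat.rec ⟨0, ⟨_, _⟩, h0⟩ (fun n s => st s (en n)) n
  have hG : ∀ n, G (n + 1) = st (G n) (en n) := fun n => rfl
  have hmono : ∀ n m, n ≤ m → le (G n) (G m) := by
    intro n m hnm
    induction m, hnm using Nat.le_induction with
    | base => exact fun i => ⟨i, rfl, rfl⟩
    | succ m _ ih => exact le_trans' _ _ _ ih (by rw [hG]; exact (hst _ _).1)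
  let R : M → N → Prop := fun a b => ∃ n, ∃ i, (G n).2.1.1 i = a ∧ (G n).2.1.2 i = b
  have hall : ∀ (m : ℕ) (a : Fin m → M) (b : Fin m → N), (∀ i, R (a i) (b i)) → TypeEq L a b := by
    intro m a b hab
    choose n hn using hab
    obtain ⟨K, hK⟩ : ∃ K, ∀ i, n i ≤ K := by
      refine ⟨Finset.univ.sup n, fun i => Finset.le_sup (Finset.mem_univ i)⟩
    have h1 : ∀ i, ∃ j, (G K).2.1.1 j = a i ∧ (G K).2.1.2 j = b i := by
      intro i
      obtain ⟨k, hk1, hk2⟩ := hn i
      obtain ⟨j, hj1, hj2⟩ := hmono _ _ (hK i) k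
      exact ⟨j, hj1.trans hk1, hj2.trans hk2⟩
    choose f hf1 hf2 using h1
    have ha : a = (G K).2.1.1 ∘ f := funext fun i => (hf1 i).symm
    have hb : b = (G K).2.1.2 ∘ f := funext fun i => (hf2 i).symm
    intro φ
    rw [ha, hb, ← Formula.realize_relabel, ← Formula.realize_relabel]
    exact (G K).2.2 _
  have htot : ∀ a, ∃ b, R a b := by
    intro a
    obtain ⟨n, hn⟩ := hen (a, Classical.arbitrary N)
    obtain ⟨i, hi⟩ := (hst (G n) (en n)).2.1
    exact ⟨_, n + 1, i, hi.trans (by rw [hn]), rfl⟩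
  have hsurj : ∀ b, ∃ a, R a b := by
    intro b
    obtain ⟨n, hn⟩ := hen (Classical.arbitrary M, b)
    obtain ⟨i, hi⟩ := (hst (G n) (en n)).2.2
    exact ⟨_, n + 1, i, rfl, hi.trans (by rw [hn])⟩
  choose f hf1 using htot
  have hform : ∀ ⦃n⦄ (φ : L.Formula (Fin n)) (x : Fin n → M),
      φ.Realize (f ∘ x) ↔ φ.Realize x := by
    intro n φ x
    exact (hall n x (f ∘ x) (fun i => hf1 (x i)) φ).symm
  let F : M ↪ₑ[L] N := ⟨f, hform⟩
  have hFsurj : Function.Surjective f := by
    intro b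
    obtain ⟨a, ha⟩ := hsurj b
    refine ⟨a, ?_⟩
    -- both `(a, f a)` and `(a, b)` are related
    have h1 := hall 2 ![a, a] ![f a, b] (by
      intro i
      fin_cases i
      · exact hf1 a
      · exact ha)
    let φ : L.Formula (Fin 2) := (Term.var 0).equal (Term.var 1)
    have h2 : φ.Realize ![a, a] := by
      simp [φ, Formula.realize_equal]
    have h3 := (h1 φ).1 h2
    simpa [φ, Formula.realize_equal] using h3
  refine ⟨⟨Equiv.ofBijective f ⟨F.injective, hFsurj⟩, ?_, ?_⟩⟩
  · intro n g x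
    exact F.map_fun g x
  · intro n r x
    exact F.map_rel r x

/-- If the automorphism group of a countable structure has finitely many orbits on `n`-tuples for
all `n`, then its complete theory is countably categorical. -/
theorem categorical_of_finOrbits {M : Type} [L.Structure M] [Countable M] [Nonempty M]
    (hf : FinOrbits L M) : Cardinal.Categorical.{0, 0, 0} ℵ₀ (L.completeTheory M) := by
  have key : ∀ N : (L.completeTheory M).ModelType, #N = ℵ₀ → Nonempty (M ≃[L] N) := by
    intro N hN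
    have : Countable N := by
      rw [← Cardinal.mk_le_aleph0_iff, hN]
    refine exists_equiv_of_finOrbits hf ?_
    rw [elementarilyEquivalent_iff]
    intro φ
    exact (realize_iff_of_model_completeTheory M N φ).symm
  intro N₁ N₂ h1 h2
  obtain ⟨e1⟩ := key N₁ h1
  obtain ⟨e2⟩ := key N₂ h2
  exact ⟨e2.comp e1.symm⟩

/-- A countable structure with a decreasing sequence of formulas, each satisfiable but without a
common solution, is not countably categorical. -/
theorem not_categorical {M : Type} [L.Structure M] [Countable M] [Infinite M]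
    (hL : L.card ≤ ℵ₀) (ρ : ℕ → L.Formula (Fin 2))
    (hdec : ∀ i (v : Fin 2 → M), (ρ (i + 1)).Realize v → (ρ i).Realize v)
    (hex : ∀ i, ∃ v : Fin 2 → M, (ρ i).Realize v)
    (hno : ∀ v : Fin 2 → M, ∃ i, ¬ (ρ i).Realize v) :
    ¬ Cardinal.Categorical.{0, 0, 0} ℵ₀ (L.completeTheory M) := by
  intro hcat
  have hdec' : ∀ i j, i ≤ j → ∀ v : Fin 2 → M, (ρ j).Realize v → (ρ i).Realize v := by
    intro i j hij
    induction j, hij using Nat.le_induction with
    | base => exact fun v h => h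
    | succ j _ ih => exact fun v h => ih v (hdec j v h)
  let T : L[[Fin 2]].Theory := (L.lhomWithConstants (Fin 2)).onTheory (L.completeTheory M) ∪
    Set.range fun i => Formula.equivSentence (ρ i)
  have hsat : T.IsSatisfiable := by
    rw [Theory.isSatisfiable_iff_isFinitelySatisfiable]
    intro T₀ hT₀
    -- a bound for the indices that occur
    obtain ⟨K, hK⟩ : ∃ K, ∀ φ ∈ T₀, φ ∈ (L.lhomWithConstants (Fin 2)).onTheory
        (L.completeTheory M) ∨ ∃ i ≤ K, Formula.equivSentence (ρ i) = φ := by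
      classical
      have h1 : ∀ φ : L[[Fin 2]].Sentence, ∃ k, φ ∈ T₀ → φ ∈ (L.lhomWithConstants (Fin 2)).onTheory
          (L.completeTheory M) ∨ Formula.equivSentence (ρ k) = φ := by
        intro φ
        by_cases hφ : φ ∈ T₀
        · rcases hT₀ hφ with h | ⟨i, hi⟩
          · exact ⟨0, fun _ => Or.inl h⟩
          · exact ⟨i, fun _ => Or.inr hi⟩
        · exact ⟨0, fun h => absurd h hφ⟩
      choose k hk using h1
      refine ⟨T₀.sup k, fun φ hφ => ?_⟩
      rcases hk φ hφ with h | h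
      · exact Or.inl h
      · exact Or.inr ⟨k φ, Finset.le_sup hφ, h⟩
    obtain ⟨v, hv⟩ := hex K
    let _ : (constantsOn (Fin 2)).Structure M := constantsOn.structure v
    have hmod : M ⊨ (T₀ : L[[Fin 2]].Theory) := by
      refine ⟨fun φ hφ => ?_⟩
      rcases hK φ hφ with h | ⟨i, hi, rfl⟩
      · obtain ⟨ψ, hψ, rfl⟩ := h
        exact (LHom.realize_onSentence M (L.lhomWithConstants (Fin 2)) ψ).2 hψ
      · rw [Formula.realize_equivSentence]
        exact hdec' i K hi v hv
    exact Theory.Model.isSatisfiable M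
  -- an infinite model
  obtain ⟨N₀⟩ := hsat
  have hinf : Infinite N₀ := by
    let _ : L.Structure N₀ := (L.lhomWithConstants (Fin 2)).reduct N₀
    have : (L.lhomWithConstants (Fin 2)).IsExpansionOn N₀ :=
      LHom.isExpansionOn_reduct _ N₀
    have h1 : N₀ ⊨ L.completeTheory M := by
      rw [← LHom.onTheory_model (L.lhomWithConstants (Fin 2)) (L.completeTheory M)]
      exact ⟨fun φ hφ => Theory.realize_sentence_of_mem T (Or.inl hφ)⟩
    have h2 : M ≅[L] N₀ := by
      rw [elementarilyEquivalent_iff]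
      intro φ
      exact (realize_iff_of_model_completeTheory M N₀ φ).symm
    exact (h2.infinite_iff).1 inferInstance
  have hcard : (L[[Fin 2]]).card ≤ ℵ₀ := by
    rw [card_withConstants]
    refine Cardinal.add_le_aleph0.2 ⟨?_, ?_⟩
    · simpa using hL
    · simp
  obtain ⟨N, hN⟩ := Theory.exists_model_card_eq (T := T) ⟨N₀, hinf⟩ (ℵ₀ : Cardinal.{0}) le_rfl
    (by simpa using hcard)
  let _ : L.Structure N := (L.lhomWithConstants (Fin 2)).reduct N
  have : (L.lhomWithConstants (Fin 2)).IsExpansionOn N := LHom.isExpansionOn_reduct _ N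
  have h1 : N ⊨ L.completeTheory M := by
    rw [← LHom.onTheory_model (L.lhomWithConstants (Fin 2)) (L.completeTheory M)]
    exact ⟨fun φ hφ => Theory.realize_sentence_of_mem T (Or.inl hφ)⟩
  have h2 : M ⊨ L.completeTheory M := inferInstance
  obtain ⟨e⟩ := hcat (Theory.ModelType.of (L.completeTheory M) N)
    (Theory.ModelType.of (L.completeTheory M) M) hN (by
      have : #M = ℵ₀ := Cardinal.mk_eq_aleph0 M
      exact this)
  let c : Fin 2 → N := fun i => (L.con i : L[[Fin 2]].Constants)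
  obtain ⟨i, hi⟩ := hno (fun j => e (c j))
  apply hi
  have h3 : (Formula.equivSentence (ρ i)).Realize N :=
    Theory.realize_sentence_of_mem T (Or.inr ⟨i, rfl⟩)
  rw [Formula.realize_equivSentence] at h3
  exact (StrongHomClass.realize_formula e (ρ i)).2 h3

end Pool.Agent.Lib.MP_b29b59_lc
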