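import Pool.Agent.Lib.MP_b29b59_lc.UM
import Mathlib.Data.Finsupp.Lex
import Mathlib.Data.Finsupp.NeLocus
import Mathlib.Order.CountableDenseLinearOrder
import Mathlib.Data.Finset.Max
import Mathlib.Data.Rat.Encodable
import Mathlib.Data.Finsupp.Encodable
import Mathlib.Data.Rat.Cast.Order

/-! A concrete countable order with a convex ultrametric valued in itself. -/

namespace Pool.Agent.Lib.MP_b29b59_lc

/-- Finitely supported functions `ℚ → ℚ`, ordered lexicographically. -/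
abbrev LexQ := Lex (ℚ →₀ ℚ)

/-- The first place where two functions differ. -/
noncomputable def dB (a b : LexQ) : WithTop ℚ := (Finsupp.neLocus (ofLex a) (ofLex b)).min

theorem dB_top {a b : LexQ} : dB a b = ⊤ ↔ a = b := by
  rw [dB, Finset.min_eq_top, Finsupp.neLocus_eq_empty]
  exact ⟨fun h => ofLex.injective h, fun h => by rw [h]⟩

theorem dB_coe {a b : LexQ} {r : ℚ} :
    dB a b = r ↔ (∀ j, j < r → ofLex a j = ofLex b j) ∧ ofLex a r ≠ ofLex b r := by
  constructor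
  · intro h
    refine ⟨fun j hj => ?_, ?_⟩
    · by_contra hn
      have h1 : j ∈ Finsupp.neLocus (ofLex a) (ofLex b) := Finsupp.mem_neLocus.2 hn
      have h2 := Finset.min_le h1
      rw [dB] at h
      rw [h] at h2
      exact absurd (WithTop.coe_le_coe.1 h2) (not_le.2 hj)
    · exact Finsupp.mem_neLocus.1 (Finset.mem_of_min h)
  · rintro ⟨h1, h2⟩
    refine le_antisymm (Finset.min_le (Finsupp.mem_neLocus.2 h2)) ?_
    refine Finset.le_min fun j hj => ?_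
    rw [WithTop.coe_le_coe]
    by_contra hn
    exact (Finsupp.mem_neLocus.1 hj) (h1 j (not_le.1 hn))

theorem dB_symm (a b : LexQ) : dB a b = dB b a := by
  rw [dB, dB, Finsupp.neLocus_comm]

theorem dB_lt {a b : LexQ} (h : a < b) :
    ∃ r : ℚ, dB a b = r ∧ (∀ j, j < r → ofLex a j = ofLex b j) ∧ ofLex a r < ofLex b r := by
  obtain ⟨r, h1, h2⟩ := Finsupp.Lex.lt_iff.1 h
  exact ⟨r, dB_coe.2 ⟨h1, h2.ne⟩, h1, h2⟩

theorem dB_mid {a b c : LexQ} (hab : a ≤ b) (hbc : b ≤ c) :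
    dB a c = min (dB a b) (dB b c) := by
  rcases hab.eq_or_lt with rfl | hab
  · rw [dB_top.2 rfl, top_inf_eq]
  rcases hbc.eq_or_lt with rfl | hbc
  · rw [dB_top.2 rfl, inf_top_eq]
  obtain ⟨r, h1, h2, h3⟩ := dB_lt hab
  obtain ⟨s, g1, g2, g3⟩ := dB_lt hbc
  rw [h1, g1, ← WithTop.coe_min, dB_coe]
  rcases lt_trichotomy r s with h | h | h
  · rw [min_eq_left h.le]
    exact ⟨fun j hj => (h2 j hj).trans (g2 j (hj.trans h)), by rw [← g2 r h]; exact h3.ne⟩
  · subst h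
    rw [min_self]
    exact ⟨fun j hj => (h2 j hj).trans (g2 j hj), (h3.trans g3).ne⟩
  · rw [min_eq_right h.le]
    exact ⟨fun j hj => (h2 j (hj.trans h)).trans (g2 j hj), by rw [h2 s h]; exact g3.ne⟩

theorem exists_change (a : LexQ) (s t : ℚ) (ht : t ≠ 0) :
    ∃ b : LexQ, dB a b = s ∧ (0 < t → a < b) ∧ (t < 0 → b < a) ∧
      (∀ j, j < s → ofLex a j = ofLex b j) ∧ ofLex b s = ofLex a s + t := by
  let b : LexQ := toLex (ofLex a + Finsupp.single s t)
  have hb : ∀ j, ofLex b j = ofLex a j + Finsupp.single s t j := fun j => rfl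
  have h1 : ∀ j, j < s → ofLex a j = ofLex b j := by
    intro j hj
    rw [hb, Finsupp.single_eq_of_ne hj.ne, add_zero]
  have h2 : ofLex b s = ofLex a s + t := by
    rw [hb, Finsupp.single_eq_same]
  refine ⟨b, dB_coe.2 ⟨h1, ?_⟩, ?_, ?_, h1, h2⟩
  · rw [h2]
    intro h
    exact ht (by linarith)
  · intro h
    exact Finsupp.Lex.lt_iff.2 ⟨s, h1, by rw [h2]; linarith⟩
  · intro h
    exact Finsupp.Lex.lt_iff.2 ⟨s, fun j hj => (h1 j hj).symm, by rw [h2]; linarith⟩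

instance : Countable LexQ := inferInstanceAs (Countable (ℚ →₀ ℚ))

instance : NoMaxOrder LexQ := ⟨fun a => by
  obtain ⟨b, _, h, _⟩ := exists_change a 0 1 one_ne_zero
  exact ⟨b, h one_pos⟩⟩

instance : NoMinOrder LexQ := ⟨fun a => by
  obtain ⟨b, _, _, h, _⟩ := exists_change a 0 (-1) (by norm_num)
  exact ⟨b, h (by norm_num)⟩⟩

theorem exists_between_dB {a c : LexQ} (h : a < c) :
    ∃ b, a < b ∧ b < c ∧ dB a b = dB a c ∧ dB b c = dB a c := by
  obtain ⟨r, h1, h2, h3⟩ := dB_lt h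
  obtain ⟨b, g1, g2, _, g4, g5⟩ := exists_change a r ((ofLex c r - ofLex a r) / 2)
    (by intro h0; linarith)
  have g6 : ofLex b r < ofLex c r := by rw [g5]; linarith
  have g7 : ∀ j, j < r → ofLex b j = ofLex c j := fun j hj => (g4 j hj).symm.trans (h2 j hj)
  refine ⟨b, g2 (by linarith), Finsupp.Lex.lt_iff.2 ⟨r, g7, g6⟩, g1.trans h1.symm, ?_⟩
  rw [h1]
  exact dB_coe.2 ⟨g7, g6.ne⟩

instance : DenselyOrdered LexQ := ⟨fun a c h => by
  obtain ⟨b, h1, h2, _⟩ := exists_between_dB h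
  exact ⟨b, h1, h2⟩⟩

/-- An isomorphism with the rationals. -/
noncomputable def isoQ : ℚ ≃o LexQ := (Order.iso_of_countable_dense ℚ LexQ).some

/-- The value of two rationals. -/
noncomputable def dq (a b : ℚ) : WithTop ℚ := dB (isoQ a) (isoQ b)

theorem dq_top {a b : ℚ} : dq a b = ⊤ ↔ a = b := by
  rw [dq, dB_top, EmbeddingLike.apply_eq_iff_eq]

theorem dq_symm (a b : ℚ) : dq a b = dq b a := dB_symm _ _

theorem dq_mid {a b c : ℚ} (hab : a ≤ b) (hbc : b ≤ c) : dq a c = min (dq a b) (dq b c) :=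
  dB_mid (isoQ.le_iff_le.2 hab) (isoQ.le_iff_le.2 hbc)

theorem dq_right (a s : ℚ) : ∃ b, a < b ∧ dq a b = s := by
  obtain ⟨b, h1, h2, _⟩ := exists_change (isoQ a) s 1 one_ne_zero
  refine ⟨isoQ.symm b, ?_, ?_⟩
  · rw [← isoQ.lt_iff_lt, OrderIso.apply_symm_apply]
    exact h2 one_pos
  · rw [dq, OrderIso.apply_symm_apply]
    exact h1

theorem dq_left (b s : ℚ) : ∃ a, a < b ∧ dq a b = s := by
  obtain ⟨a, h1, _, h2, _⟩ := exists_change (isoQ b) s (-1) (by norm_num)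
  refine ⟨isoQ.symm a, ?_, ?_⟩
  · rw [← isoQ.lt_iff_lt, OrderIso.apply_symm_apply]
    exact h2 (by norm_num)
  · rw [dq_symm, dq, OrderIso.apply_symm_apply]
    exact h1

theorem dq_between {a c : ℚ} (h : a < c) : ∃ b, a < b ∧ b < c ∧ dq a b = dq a c ∧
    dq b c = dq a c := by
  obtain ⟨b, h1, h2, h3, h4⟩ := exists_between_dB (isoQ.lt_iff_lt.2 h)
  refine ⟨isoQ.symm b, ?_, ?_, ?_, ?_⟩
  · rw [← isoQ.lt_iff_lt, OrderIso.apply_symm_apply]
    exact h1
  · rw [← isoQ.lt_iff_lt, OrderIso.apply_symm_apply]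
    exact h2
  · rw [dq, OrderIso.apply_symm_apply, h3]; rfl
  · rw [dq, OrderIso.apply_symm_apply, h4]; rfl

/-- The underlying order: the rationals with two endpoints. -/
abbrev Mt := WithBot (WithTop ℚ)

/-- The inner points. -/
def inn (a : ℚ) : Mt := ((a : WithTop ℚ) : Mt)

theorem inn_lt {a b : ℚ} : inn a < inn b ↔ a < b := by
  simp [inn]

theorem inn_le {a b : ℚ} : inn a ≤ inn b ↔ a ≤ b := by
  simp [inn]

theorem inn_inj {a b : ℚ} : inn a = inn b ↔ a = b := by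
  simp [inn]

theorem inn_ne_bot (a : ℚ) : inn a ≠ ⊥ := by simp [inn]

theorem inn_ne_top (a : ℚ) : inn a ≠ ⊤ := by
  intro h
  have : ((a : WithTop ℚ) : Mt) = ((⊤ : WithTop ℚ) : Mt) := h
  rw [WithBot.coe_inj] at this
  exact WithTop.coe_ne_top this

theorem Mt_cases (x : Mt) : x = ⊥ ∨ x = ⊤ ∨ ∃ a, x = inn a := by
  induction x using WithBot.recBotCoe with
  | bot => exact Or.inl rfl
  | coe x =>
    induction x using WithTop.recTopCoe with
    | top => exact Or.inr (Or.inl rfl)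
    | coe a => exact Or.inr (Or.inr ⟨a, rfl⟩)

open Classical in
/-- The ultrametric. -/
noncomputable def Dt (x y : Mt) : Mt :=
  if h : (∃ a, x = inn a) ∧ (∃ b, y = inn b) then
    ((dq h.1.choose h.2.choose : WithTop ℚ) : Mt)
  else if x = y then ⊤ else ⊥

theorem Dt_inn (a b : ℚ) : Dt (inn a) (inn b) = ((dq a b : WithTop ℚ) : Mt) := by
  have h : (∃ a', inn a = inn a') ∧ (∃ b', inn b = inn b') := ⟨⟨a, rfl⟩, ⟨b, rfl⟩⟩
  rw [Dt, dif_pos h]
  rw [← inn_inj.1 h.1.choose_spec, ← inn_inj.1 h.2.choose_spec]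

theorem Dt_of_not {x y : Mt} (h : ¬ ((∃ a, x = inn a) ∧ (∃ b, y = inn b))) (hxy : x ≠ y) :
    Dt x y = ⊥ := by
  rw [Dt, dif_neg h, if_neg hxy]

theorem Dt_self (x : Mt) : Dt x x = ⊤ := by
  by_cases h : ∃ a, x = inn a
  · obtain ⟨a, rfl⟩ := h
    rw [Dt_inn, dq_top.2 rfl]
    rfl
  · rw [Dt, dif_neg (fun h' => h h'.1), if_pos rfl]

theorem not_inn_bot : ¬ ∃ a, (⊥ : Mt) = inn a := fun ⟨a, h⟩ => inn_ne_bot a h.symm

theorem not_inn_top : ¬ ∃ a, (⊤ : Mt) = inn a := fun ⟨a, h⟩ => inn_ne_top a h.symm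

theorem Dt_bot {x : Mt} (hx : x ≠ ⊥) : Dt ⊥ x = ⊥ :=
  Dt_of_not (fun h => not_inn_bot h.1) hx.symm

theorem Dt_bot' {x : Mt} (hx : x ≠ ⊥) : Dt x ⊥ = ⊥ :=
  Dt_of_not (fun h => not_inn_bot h.2) hx

theorem Dt_top {x : Mt} (hx : x ≠ ⊤) : Dt x ⊤ = ⊥ :=
  Dt_of_not (fun h => not_inn_top h.2) hx

theorem Dt_top' {x : Mt} (hx : x ≠ ⊤) : Dt ⊤ x = ⊥ :=
  Dt_of_not (fun h => not_inn_top h.1) hx.symm

theorem Dt_coe_ne_bot (a b : ℚ) : Dt (inn a) (inn b) ≠ ⊥ := by
  rw [Dt_inn]; exact WithBot.coe_ne_bot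

theorem isUM_Dt : IsUM Dt where
  symm x y := by
    rcases Mt_cases x with rfl | rfl | ⟨a, rfl⟩ <;> rcases Mt_cases y with rfl | rfl | ⟨b, rfl⟩
    · rfl
    · rw [Dt_bot (by simp), Dt_bot' (by simp)]
    · rw [Dt_bot (inn_ne_bot b), Dt_bot' (inn_ne_bot b)]
    · rw [Dt_bot (by simp), Dt_bot' (by simp)]
    · rfl
    · rw [Dt_top (inn_ne_top b), Dt_top' (inn_ne_top b)]
    · rw [Dt_bot (inn_ne_bot a), Dt_bot' (inn_ne_bot a)]
    · rw [Dt_top (inn_ne_top a), Dt_top' (inn_ne_top a)]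
    · rw [Dt_inn, Dt_inn, dq_symm]
  top_iff x y := by
    constructor
    · intro h
      by_contra hxy
      rcases Mt_cases x with rfl | rfl | ⟨a, rfl⟩
      · rw [Dt_bot (Ne.symm hxy)] at h
        exact bot_ne_top h
      · rw [Dt_top' (Ne.symm hxy)] at h
        exact bot_ne_top h
      · rcases Mt_cases y with rfl | rfl | ⟨b, rfl⟩
        · rw [Dt_bot' hxy] at h
          exact bot_ne_top h
        · rw [Dt_top hxy] at h
          exact bot_ne_top h
        · rw [Dt_inn] at h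
          have h2 : ((dq a b : WithTop ℚ) : Mt) = ((⊤ : WithTop ℚ) : Mt) := h
          rw [WithBot.coe_inj, dq_top] at h2
          exact hxy (by rw [h2])
    · rintro rfl
      exact Dt_self x
  mid x y z hxy hyz := by
    rcases hxy.eq_or_lt with rfl | hxy
    · rw [Dt_self, top_inf_eq]
    rcases hyz.eq_or_lt with rfl | hyz
    · rw [Dt_self, inf_top_eq]
    have hy1 : y ≠ ⊥ := (bot_le.trans_lt hxy).ne'
    have hy2 : y ≠ ⊤ := (hyz.trans_le le_top).ne
    have hz : z ≠ ⊥ := (bot_le.trans_lt (hxy.trans hyz)).ne'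
    have hx : x ≠ ⊤ := ((hxy.trans hyz).trans_le le_top).ne
    rcases Mt_cases x with rfl | rfl | ⟨a, rfl⟩
    · rw [Dt_bot hz, Dt_bot hy1, bot_inf_eq]
    · exact absurd rfl hx
    rcases Mt_cases z with rfl | rfl | ⟨c, rfl⟩
    · exact absurd rfl hz
    · rw [Dt_top hx, Dt_top hy2, inf_bot_eq]
    rcases Mt_cases y with rfl | rfl | ⟨b, rfl⟩
    · exact absurd rfl hy1
    · exact absurd rfl hy2
    rw [Dt_inn, Dt_inn, Dt_inn, dq_mid (inn_lt.1 hxy).le (inn_lt.1 hyz).le]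
    rfl
  bot_left x hx := Dt_bot hx
  top_right x hx := Dt_top hx
  ne_bot x y hx1 hx2 hy1 hy2 := by
    rcases Mt_cases x with rfl | rfl | ⟨a, rfl⟩
    · exact absurd rfl hx1
    · exact absurd rfl hx2
    rcases Mt_cases y with rfl | rfl | ⟨b, rfl⟩
    · exact absurd rfl hy1
    · exact absurd rfl hy2
    exact Dt_coe_ne_bot a b
  right x z s hxz hx h1 h2 := by
    have hx' : x ≠ ⊤ := (hxz.trans_le le_top).ne
    obtain ⟨a, rfl⟩ := ((Mt_cases x).resolve_left hx).resolve_left hx'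
    have hs : s ≠ ⊥ := (bot_le.trans_lt h1).ne'
    obtain ⟨t, rfl⟩ := ((Mt_cases s).resolve_left hs).resolve_left h2.ne
    obtain ⟨b, hb1, hb2⟩ := dq_right a t
    refine ⟨inn b, inn_lt.2 hb1, ?_, ?_⟩
    · rcases Mt_cases z with rfl | rfl | ⟨c, rfl⟩
      · exact absurd hxz not_lt_bot
      · exact lt_top_iff_ne_top.2 (inn_ne_top b)
      · rw [inn_lt]
        by_contra hn
        have h3 := dq_mid (inn_lt.1 hxz).le (not_lt.1 hn)
        rw [Dt_inn] at h1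
        have h4 : dq a c < (t : WithTop ℚ) := WithBot.coe_lt_coe.1 h1
        have h5 : dq a b ≤ dq a c := by rw [h3]; exact min_le_left _ _
        rw [hb2] at h5
        exact absurd h5 (not_le.2 h4)
    · rw [Dt_inn, hb2]; rfl
  left x z s hxz hz h1 h2 := by
    have hz' : z ≠ ⊥ := (bot_le.trans_lt hxz).ne'
    obtain ⟨c, rfl⟩ := ((Mt_cases z).resolve_left hz').resolve_left hz
    have hs : s ≠ ⊥ := (bot_le.trans_lt h1).ne'
    obtain ⟨t, rfl⟩ := ((Mt_cases s).resolve_left hs).resolve_left h2.ne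
    obtain ⟨b, hb1, hb2⟩ := dq_left c t
    refine ⟨inn b, ?_, inn_lt.2 hb1, ?_⟩
    · rcases Mt_cases x with rfl | rfl | ⟨a, rfl⟩
      · exact bot_lt_iff_ne_bot.2 (inn_ne_bot b)
      · exact absurd hxz not_top_lt
      · rw [inn_lt]
        by_contra hn
        have h3 := dq_mid (not_lt.1 hn) (inn_lt.1 hxz).le
        rw [Dt_inn] at h1
        have h4 : dq a c < (t : WithTop ℚ) := WithBot.coe_lt_coe.1 h1
        have h5 : dq b c ≤ dq a c := by rw [h3]; exact min_le_right _ _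
        rw [hb2] at h5
        exact absurd h5 (not_le.2 h4)
    · rw [Dt_inn, hb2]; rfl
  between x z hxz hends := by
    have hz' : z ≠ ⊥ := (bot_le.trans_lt hxz).ne'
    have hx' : x ≠ ⊤ := (hxz.trans_le le_top).ne
    by_cases hx : x = ⊥
    · have hz := hends.1 hx
      subst hx hz
      refine ⟨inn 0, bot_lt_iff_ne_bot.2 (inn_ne_bot 0), lt_top_iff_ne_top.2 (inn_ne_top 0), ?_, ?_⟩
      · rw [Dt_bot (inn_ne_bot 0), Dt_bot (by simp)]
      · rw [Dt_top (inn_ne_top 0), Dt_bot (by simp)]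
    · have hz : z ≠ ⊤ := fun h => hx (hends.2 h)
      obtain ⟨c, rfl⟩ := ((Mt_cases z).resolve_left hz').resolve_left hz
      obtain ⟨a, rfl⟩ := ((Mt_cases x).resolve_left hx).resolve_left hx'
      obtain ⟨b, h1, h2, h3, h4⟩ := dq_between (inn_lt.1 hxz)
      exact ⟨inn b, inn_lt.2 h1, inn_lt.2 h2, by rw [Dt_inn, Dt_inn, h3],
        by rw [Dt_inn, Dt_inn, h4]⟩

end Pool.Agent.Lib.MP_b29b59_lc
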