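import Pool.Agent.Lib.MP_b29b59_lc.Struct

/-! The convex set `U` and the infinitely many definable equivalence relations on it. -/

open FirstOrder FirstOrder.Language

namespace Pool.Agent.Lib.MP_b29b59_lc

variable {M : Type} [LinearOrder M] [BoundedOrder M] {D : M → M → M}

/-- The data of the cut: level maps `m`, upper anchors `d`, inner anchors `a`. -/
structure CutData (D : M → M → M) (m : ℕ → M → M) (d a : ℕ → M) : Prop where
  m_zero : ∀ x, m 0 x = x
  m_succ : ∀ j x, m (j + 1) x = D (m j x) (d j)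
  a_succ : ∀ j, a (j + 1) = D (a j) (d j)
  a_bot : ∀ j, a j ≠ ⊥
  a_lt : ∀ j, a j < d j
  d_lt : ∀ j, d j < ⊤
  coin : ∀ x, ∃ j, m j x ≠ ⊥ → m j x < d j → m (j + 1) x = a (j + 1)

theorem exists_inner (hD : IsUM D) (h : (⊥ : M) < ⊤) : ∃ a : M, ⊥ < a ∧ a < ⊤ := by
  obtain ⟨y, h1, h2, _⟩ := hD.between ⊥ ⊤ h (iff_of_true rfl rfl)
  exact ⟨y, h1, h2⟩

theorem exists_below (hD : IsUM D) (h : (⊥ : M) < ⊤) {t : M} (ht : ⊥ < t) :
    ∃ s : M, ⊥ < s ∧ s < t := by
  by_cases htt : t = ⊤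
  · subst htt; exact exists_inner hD h
  · obtain ⟨y, h1, h2, _⟩ := hD.left ⊥ t t ht htt (by rw [hD.bot_left t ht.ne']; exact ht)
      (lt_top_iff_ne_top.2 htt)
    exact ⟨y, h1, h2⟩

theorem exists_above (hD : IsUM D) {r : M} (h1 : ⊥ < r) (h2 : r < ⊤) :
    ∃ s : M, r < s ∧ s < ⊤ := by
  obtain ⟨y, h3, h4, _⟩ := hD.right r ⊤ r h2 h1.ne' (by rw [hD.top_right r h2.ne]; exact h1) h2
  exact ⟨y, h3, h4⟩

theorem exists_anchor (hD : IsUM D) {a : M} (ha1 : a ≠ ⊥) (ha2 : a ≠ ⊤) {S : Set M}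
    (hS : S.Finite) : ∃ d, a < d ∧ d < ⊤ ∧ D a d ≠ ⊥ ∧ ∀ y ∈ S, y ≠ ⊥ → y < d → D y d = D a d := by
  have ha1' : ⊥ < a := bot_lt_iff_ne_bot.2 ha1
  have ha2' : a < ⊤ := lt_top_iff_ne_top.2 ha2
  have hbt : (⊥ : M) < ⊤ := ha1'.trans ha2'
  -- a lower bound for the relevant distances
  obtain ⟨t, ht1, ht2⟩ : ∃ t : M, ⊥ < t ∧ ∀ y ∈ S, y ≠ ⊥ → y ≠ ⊤ → t ≤ D y a := by
    induction S, hS using Set.Finite.induction_on with
    | empty => exact ⟨⊤, hbt, fun y hy => hy.elim⟩
    | @insert b S _ _ ih =>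
      obtain ⟨t, ht1, ht2⟩ := ih
      by_cases hb : b ≠ ⊥ ∧ b ≠ ⊤
      · refine ⟨min t (D b a), lt_min ht1 (bot_lt_iff_ne_bot.2
          (hD.ne_bot b a hb.1 hb.2 ha1 ha2)), ?_⟩
        rintro y (rfl | hy) h1 h2
        · exact min_le_right _ _
        · exact (min_le_left _ _).trans (ht2 y hy h1 h2)
      · refine ⟨t, ht1, ?_⟩
        rintro y (rfl | hy) h1 h2
        · exact absurd ⟨h1, h2⟩ hb
        · exact ht2 y hy h1 h2
  obtain ⟨s, hs1, hs2⟩ := exists_below hD hbt ht1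
  obtain ⟨d, hd1, hd2, hd3⟩ := hD.right a ⊤ s ha2' ha1
    (by rw [hD.top_right a ha2]; exact hs1) (hs2.trans_le le_top)
  refine ⟨d, hd1, hd2, by rw [hd3]; exact hs1.ne', fun y hy hy1 hy2 => ?_⟩
  have hy3 : y ≠ ⊤ := (hy2.trans_le le_top).ne
  have h4 := hs2.trans_le (ht2 y hy hy1 hy3)
  rw [hd3]
  rcases le_total y a with h5 | h5
  · rw [hD.mid y a d h5 hd1.le, hd3, min_eq_right h4.le]
  · have h6 := hD.mid a y d h5 hy2.le
    rw [hd3, hD.symm a y] at h6
    rcases min_choice (D y a) (D y d) with h7 | h7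
    · rw [h7] at h6; exact absurd h6 h4.ne
    · rw [h7] at h6; exact h6.symm

theorem exists_cutData [Countable M] (hD : IsUM D) (h : (⊥ : M) < ⊤) :
    ∃ m d a, CutData D m d a := by
  obtain ⟨a₀, h1, h2⟩ := exists_inner hD h
  obtain ⟨en, hen⟩ : ∃ en : ℕ → M, Function.Surjective en := by
    have : Nonempty M := ⟨⊥⟩
    exact exists_surjective_nat M
  let St := (M → M) × {a : M // a ≠ ⊥ ∧ a ≠ ⊤}
  have hch : ∀ (j : ℕ) (s : St), ∃ d, s.2.1 < d ∧ d < ⊤ ∧ D s.2.1 d ≠ ⊥ ∧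
      ∀ y ∈ (fun k => s.1 (en k)) '' (Set.Iic j), y ≠ ⊥ → y < d → D y d = D s.2.1 d :=
    fun j s => exists_anchor hD s.2.2.1 s.2.2.2 ((Set.finite_Iic j).image _)
  choose dd hd1 hd2 hd3 hd4 using hch
  let st : ℕ → St := fun n => Nat.rec (⟨id, a₀, h1.ne', h2.ne⟩ : St)
    (fun j s => (⟨fun x => D (s.1 x) (dd j s), D s.2.1 (dd j s), hd3 j s,
      (hD.lt_top (hd1 j s).ne).ne⟩ : St)) n
  refine ⟨fun j => (st j).1, fun j => dd j (st j), fun j => (st j).2.1, ?_, ?_, ?_, ?_, ?_, ?_, ?_⟩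
  · intro x; rfl
  · intro j x; rfl
  · intro j; rfl
  · intro j; exact (st j).2.2.1
  · intro j; exact hd1 j (st j)
  · intro j; exact hd2 j (st j)
  · intro x
    obtain ⟨j, rfl⟩ := hen x
    exact ⟨j, fun h3 h4 => hd4 j (st j) _ ⟨j, le_refl j, rfl⟩ h3 h4⟩

namespace CutData

variable {m : ℕ → M → M} {d a : ℕ → M}

/-- The convex set. -/
def U (m : ℕ → M → M) (d : ℕ → M) : Set M := {x | x ≠ ⊥ ∧ ∀ j, m j x < d j}

theorem m_ne_bot (hD : IsUM D) (h : CutData D m d a) {x : M} (hx : x ∈ U m d) (j : ℕ) :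
    m j x ≠ ⊥ := by
  induction j with
  | zero => rw [h.m_zero]; exact hx.1
  | succ j ih =>
    rw [h.m_succ]
    exact hD.ne_bot _ _ ih ((hx.2 j).trans_le le_top).ne
      ((bot_le.trans_lt (hx.2 j)).ne') (h.d_lt j).ne

theorem m_mono (hD : IsUM D) (h : CutData D m d a) {x y : M} (hxy : x ≤ y)
    (hy : ∀ j, m j y < d j) (j : ℕ) : m j x ≤ m j y := by
  induction j with
  | zero => rw [h.m_zero, h.m_zero]; exact hxy
  | succ j ih =>
    rw [h.m_succ, h.m_succ, hD.mid _ _ _ ih (hy j).le]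
    exact min_le_right _ _

theorem ordConnected (hD : IsUM D) (h : CutData D m d a) : (U m d).OrdConnected := by
  constructor
  rintro x hx z hz y ⟨hxy, hyz⟩
  refine ⟨((bot_lt_iff_ne_bot.2 hx.1).trans_le hxy).ne', fun j => ?_⟩
  exact (h.m_mono hD hyz hz.2 j).trans_lt (hz.2 j)

/-- Pull back a point of level `j`. -/
theorem pull (hD : IsUM D) (h : CutData D m d a) (j : ℕ) : ∀ y, ⊥ < y → y < d j →
    ∃ z, z ≠ ⊥ ∧ (∀ k, k ≤ j → m k z < d k) ∧ m j z = y := by
  induction j with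
  | zero =>
    intro y h1 h2
    refine ⟨y, h1.ne', fun k hk => ?_, h.m_zero y⟩
    obtain rfl : k = 0 := by omega
    rw [h.m_zero]; exact h2
  | succ j ih =>
    intro y h1 h2
    obtain ⟨y', g1, g2, g3⟩ := hD.left ⊥ (d j) y (bot_le.trans_lt (h.a_lt j)) (h.d_lt j).ne
      (by rw [hD.bot_left (d j) (bot_le.trans_lt (h.a_lt j)).ne']; exact h1) (h2.trans_le le_top)
    obtain ⟨z, k1, k2, k3⟩ := ih y' g1 g2
    have k4 : m (j + 1) z = y := by rw [h.m_succ, k3, g3]
    refine ⟨z, k1, fun k hk => ?_, k4⟩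
    rcases Nat.lt_or_ge j k with h3 | h3
    · obtain rfl : k = j + 1 := by omega
      rw [k4]; exact h2
    · exact k2 k h3

/-- The image of `U` at each level has no largest element. -/
theorem no_max (hD : IsUM D) (h : CutData D m d a) {x : M} (hx : x ∈ U m d) (j : ℕ) :
    ∃ z ∈ U m d, m j x < m j z := by
  have h1 : ⊥ < m j x := bot_lt_iff_ne_bot.2 (h.m_ne_bot hD hx j)
  have h2 : m j x < d j := hx.2 j
  have h3 : ⊥ < D (m j x) (d j) := by
    rw [← h.m_succ]; exact bot_lt_iff_ne_bot.2 (h.m_ne_bot hD hx (j + 1))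
  obtain ⟨s, hs1, hs2⟩ := exists_above hD h3 (hD.lt_top h2.ne)
  obtain ⟨y, hy1, hy2, hy3⟩ := hD.right (m j x) (d j) s h2 h1.ne' hs1 hs2
  have hy4 : D y (d j) = D (m j x) (d j) := by
    have h5 := hD.mid (m j x) y (d j) hy1.le hy2.le
    rw [hy3] at h5
    rcases min_choice s (D y (d j)) with h6 | h6
    · rw [h6] at h5; exact absurd h5 hs1.ne
    · rw [h6] at h5; exact h5.symm
  obtain ⟨z, hz1, hz2, hz3⟩ := h.pull hD j y (h1.trans hy1) hy2
  have hz4 : ∀ k, m (j + 1 + k) z = m (j + 1 + k) x := by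
    intro k
    induction k with
    | zero => rw [Nat.add_zero, h.m_succ, h.m_succ, hz3, hy4]
    | succ k ih => rw [← Nat.add_assoc, h.m_succ, h.m_succ, ih]
  refine ⟨z, ⟨hz1, fun k => ?_⟩, by rw [hz3]; exact hy1⟩
  rcases Nat.lt_or_ge j k with h6 | h6
  · obtain ⟨k', rfl⟩ : ∃ k', k = j + 1 + k' := ⟨k - (j + 1), by omega⟩
    rw [hz4]; exact hx.2 _
  · exact hz2 k h6

/-- The key limit property. -/
theorem limit (hD : IsUM D) (h : CutData D m d a) {x : M} (hx : x ∈ U m d) (j : ℕ) :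
    ∃ w ∈ U m d, ∀ z ∈ U m d, w ≤ z → D (m j x) (m j z) = m (j + 1) x := by
  obtain ⟨w, hw, hlt⟩ := h.no_max hD hx (j + 1)
  refine ⟨w, hw, fun z hz hwz => ?_⟩
  have h1 : m (j + 1) x < m (j + 1) z := hlt.trans_le (h.m_mono hD hwz hz.2 (j + 1))
  rw [h.m_succ, h.m_succ] at h1
  have h2 : m j x ≤ m j z := by
    by_contra hn
    have h3 := hD.mid (m j z) (m j x) (d j) (not_le.1 hn).le (hx.2 j).le
    rw [h3] at h1
    exact absurd (min_le_right _ _) (not_le.2 h1)
  have h3 := hD.mid (m j x) (m j z) (d j) h2 (hz.2 j).le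
  rw [h.m_succ]
  rcases min_choice (D (m j x) (m j z)) (D (m j z) (d j)) with h4 | h4
  · rw [h4] at h3; exact h3.symm
  · rw [h4] at h3; exact absurd h3 h1.ne

theorem nonempty (h : CutData D m d a) (ha : m 0 (a 0) = a 0) : a 0 ∈ U m d := by
  have h1 : ∀ j, m j (a 0) = a j := by
    intro j
    induction j with
    | zero => exact ha
    | succ j ih => rw [h.m_succ, ih, h.a_succ]
  exact ⟨h.a_bot 0, fun j => by rw [h1]; exact h.a_lt j⟩

theorem eventually (hD : IsUM D) (h : CutData D m d a) {x : M} (hx : x ∈ U m d) :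
    ∃ j, ∀ k, j ≤ k → m k x = a k := by
  obtain ⟨j, hj⟩ := h.coin x
  have h1 := hj (h.m_ne_bot hD hx j) (hx.2 j)
  refine ⟨j + 1, fun k hk => ?_⟩
  induction k, hk using Nat.le_induction with
  | base => exact h1
  | succ k _ ih => rw [h.m_succ, ih, h.a_succ]

/-- Two points of `U` with different values at level `j`. -/
theorem exists_ne (hD : IsUM D) (h : CutData D m d a) (j : ℕ) :
    ∃ x ∈ U m d, ∃ y ∈ U m d, m j x ≠ m j y := by
  have h0 := h.nonempty (h.m_zero _)
  obtain ⟨z, hz, hlt⟩ := h.no_max hD h0 j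
  exact ⟨_, h0, z, hz, hlt.ne⟩

theorem eventually_eq (hD : IsUM D) (h : CutData D m d a) {x y : M} (hx : x ∈ U m d)
    (hy : y ∈ U m d) : ∃ j, m j x = m j y := by
  obtain ⟨j, hj⟩ := h.eventually hD hx
  obtain ⟨k, hk⟩ := h.eventually hD hy
  exact ⟨max j k, by rw [hj _ (le_max_left _ _), hk _ (le_max_right _ _)]⟩

/-- The sets to be defined. -/
def A (D : M → M → M) (m : ℕ → M → M) (d : ℕ → M) (i j : ℕ) : Set (Fin (i + 2) → M) :=
  {v | (∀ k, v k ∈ U m d) ∧ SR D i (m j) v}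

theorem A_succ (hD : IsUM D) (h : CutData D m d a) (i j : ℕ) :
    A D m d i (j + 1) = {v | (∀ k, v k ∈ U m d) ∧
      ∃ w ∈ U m d, ∀ z ∈ U m d, w ≤ z →
        (Fin.cons z v : Fin (i + 1 + 2) → M) ∈ A D m d (i + 1) j} := by
  -- a common bound
  have hb : ∀ v : Fin (i + 2) → M, (∀ k, v k ∈ U m d) → ∃ w ∈ U m d, ∀ z ∈ U m d, w ≤ z →
      ∀ k, D (m j (v k)) (m j z) = m (j + 1) (v k) := by
    intro v hv
    choose w hw hw' using fun k => h.limit hD (hv k) j
    obtain ⟨k₀, hk₀⟩ := Finite.exists_max w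
    exact ⟨w k₀, hw k₀, fun z hz hwz k => hw' k z hz ((hk₀ k).trans hwz)⟩
  have hiff : ∀ (v : Fin (i + 2) → M) (z : M), (∀ k, v k ∈ U m d) → z ∈ U m d →
      (∀ k, D (m j (v k)) (m j z) = m (j + 1) (v k)) →
      ((Fin.cons z v : Fin (i + 1 + 2) → M) ∈ A D m d (i + 1) j ↔ SR D i (m (j + 1)) v) := by
    intro v z hv hz hk
    have h1 : (∀ k, (Fin.cons z v : Fin (i + 1 + 2) → M) k ∈ U m d) := by
      intro k
      refine Fin.cases hz (fun k => hv k) k
    have h2 : SR D (i + 1) (m j) (Fin.cons z v : Fin (i + 1 + 2) → M) ↔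
        SR D i (fun x => D (m j x) (m j z)) v := Iff.rfl
    constructor
    · rintro ⟨_, h3⟩
      exact (SR_congr D i _ _ v hk).1 (h2.1 h3)
    · intro h3
      exact ⟨h1, h2.2 ((SR_congr D i _ _ v hk).2 h3)⟩
  ext v
  constructor
  · rintro ⟨hv, hs⟩
    obtain ⟨w, hw, hw'⟩ := hb v hv
    exact ⟨hv, w, hw, fun z hz hwz => (hiff v z hv hz (hw' z hz hwz)).2 hs⟩
  · rintro ⟨hv, w, hw, hw'⟩
    obtain ⟨w₂, hw₂, hw₂'⟩ := hb v hv
    have hmax : max w w₂ ∈ U m d := by
      rcases max_choice w w₂ with h1 | h1 <;> rw [h1] <;> assumption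
    exact ⟨hv, (hiff v _ hv hmax (hw₂' _ hmax (le_max_right _ _))).1
      (hw' _ hmax (le_max_left _ _))⟩

end CutData

section Definability

variable {L' : FirstOrder.Language.{0, 0}} [L'.Structure M]

omit [LinearOrder M] [BoundedOrder M] in
theorem definable_rel {α : Type} {n : ℕ} (R : L'.Relations n) (f : Fin n → α) :
    (∅ : Set M).Definable L' {u : α → M | Structure.RelMap R (u ∘ f)} := by
  rw [Set.empty_definable_iff]
  refine ⟨R.formula fun i => Term.var (f i), ?_⟩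
  ext u
  simp only [Set.mem_ofPred_eq, Formula.realize_rel]
  rfl

omit [BoundedOrder M] in
theorem definable_ev {U : Set M} (hU : ∀ {α : Type} (k : α),
    (∅ : Set M).Definable L' {u : α → M | u k ∈ U})
    (hle : ∀ {α : Type} (k l : α), (∅ : Set M).Definable L' {u : α → M | u k ≤ u l})
    {n : ℕ} {B : Set (Fin (n + 1) → M)} (hB : (∅ : Set M).Definable L' B) :
    (∅ : Set M).Definable L' {v : Fin n → M | ∃ w ∈ U, ∀ z ∈ U, w ≤ z →
      (Fin.cons z v : Fin (n + 1) → M) ∈ B} := by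
  let f : Fin (n + 1) → (Fin n ⊕ Fin 1) ⊕ Fin 1 := Fin.cases (Sum.inr 0) fun k => Sum.inl (Sum.inl k)
  have h1 : (∅ : Set M).Definable L' ({u : (Fin n ⊕ Fin 1) ⊕ Fin 1 → M | u (Sum.inr 0) ∈ U}ᶜ ∪
      ({u : (Fin n ⊕ Fin 1) ⊕ Fin 1 → M | u (Sum.inl (Sum.inr 0)) ≤ u (Sum.inr 0)}ᶜ ∪
        (fun g : (Fin n ⊕ Fin 1) ⊕ Fin 1 → M => g ∘ f) ⁻¹' B)) :=
    (hU _).compl.union ((hle _ _).compl.union (hB.preimage_comp f))
  have h2 := (h1.forall_of_finite).inter (hU (α := Fin n ⊕ Fin 1) (Sum.inr 0))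
  have h3 := h2.exists_of_finite
  convert h3 using 1
  ext v
  have hcons : ∀ (w z : Fin 1 → M), (Sum.elim (Sum.elim v w) z) ∘ f =
      (Fin.cons (z 0) v : Fin (n + 1) → M) := by
    intro w z
    funext k
    refine Fin.cases rfl (fun k => rfl) k
  constructor
  · rintro ⟨w, hw, hw'⟩
    refine ⟨fun _ => w, ?_, hw⟩
    intro z
    by_cases hz : z 0 ∈ U
    · by_cases hz' : w ≤ z 0
      · refine Or.inr (Or.inr ?_)
        show (Sum.elim (Sum.elim v fun _ => w) z) ∘ f ∈ B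
        rw [hcons]
        exact hw' _ hz hz'
      · exact Or.inr (Or.inl hz')
    · exact Or.inl hz
  · rintro ⟨w, hw1, hw2⟩
    refine ⟨w 0, hw2, fun z hz hwz => ?_⟩
    rcases hw1 (fun _ => z) with h4 | h4 | h4
    · exact absurd hz h4
    · exact absurd hwz h4
    · have h5 : (Sum.elim (Sum.elim v w) fun _ => z) ∘ f ∈ B := h4
      rw [hcons] at h5
      exact h5

end Definability

theorem card_lang : (lang.sum predLang).card ≤ Cardinal.aleph0 := by
  have h1 : Countable (lang.sum predLang).Symbols := by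
    have hS : ∀ n, Countable (Sym n) := by
      intro n
      have : Function.Injective (fun s : Sym n => match s with
        | .le => (0 : ℕ)
        | .s i => i + 1) := by
        intro s t h
        cases s with
        | le =>
          cases t with
          | le => rfl
          | s i => simp at h
        | s i =>
          cases t with
          | le => simp at h
          | s i => rfl
      exact this.countable
    have hP : ∀ n, Countable (PredSym n) := by
      intro n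
      have : Subsingleton (PredSym n) := ⟨fun s t => by cases s; cases t; rfl⟩
      infer_instance
    have hf : ∀ n, Countable ((lang.sum predLang).Functions n) := by
      intro n
      have : IsEmpty ((lang.sum predLang).Functions n) :=
        ⟨fun s => by rcases s with s | s <;> exact Empty.elim s⟩
      infer_instance
    have hr : ∀ n, Countable ((lang.sum predLang).Relations n) := by
      intro n
      have h1 := hS n
      have h2 := hP n
      exact inferInstanceAs (Countable (Sym n ⊕ PredSym n))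
    exact inferInstanceAs (Countable ((Σ n, (lang.sum predLang).Functions n) ⊕
      (Σ n, (lang.sum predLang).Relations n)))
  exact Cardinal.mk_le_aleph0_iff.2 h1

open CutData in
theorem not_expansion [Countable M] [Infinite M] (hD : IsUM D) {m : ℕ → M → M} {d a : ℕ → M}
    (h : CutData D m d a) :
    ¬ @ExpansionCountablyCategorical lang M (struc D) (U m d) := by
  let _ := struc D
  let _ := predStructure (U m d)
  have hU : ∀ {α : Type} (k : α), (∅ : Set M).Definable (lang.sum predLang)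
      {u : α → M | u k ∈ U m d} := fun {α} k =>
    definable_rel (L' := lang.sum predLang) (M := M) (Sum.inr PredSym.U) (fun _ : Fin 1 => k)
  have hle : ∀ {α : Type} (k l : α), (∅ : Set M).Definable (lang.sum predLang)
      {u : α → M | u k ≤ u l} := fun {α} k l =>
    definable_rel (L' := lang.sum predLang) (M := M) (Sum.inl Sym.le) ![k, l]
  have hA : ∀ j i, (∅ : Set M).Definable (lang.sum predLang) (A D m d i j) := by
    intro j
    induction j with
    | zero =>
      intro i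
      let R : (lang.sum predLang).Relations (i + 2) := Sum.inl (Sym.s i)
      have h1 := (Set.definable_iInter_of_finite fun k : Fin (i + 2) => hU k).inter
        (definable_rel (L' := lang.sum predLang) (M := M) R id)
      convert h1 using 1
      ext v
      simp only [A, Set.mem_ofPred_eq, Set.mem_inter_iff, Set.mem_iInter]
      refine and_congr Iff.rfl ?_
      show SR D i (m 0) v ↔ SR D i id v
      exact SR_congr D i _ _ v fun k => h.m_zero _
    | succ j ih =>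
      intro i
      rw [h.A_succ hD]
      have h1 := definable_ev hU hle (ih (i + 1))
      have h2 := (Set.definable_iInter_of_finite fun k : Fin (i + 2) => hU k).inter h1
      convert h2 using 1
      ext v
      simp only [Set.mem_ofPred_eq, Set.mem_inter_iff, Set.mem_iInter]
  have hρ : ∀ j, ∃ φ : (lang.sum predLang).Formula (Fin 2), ∀ v : Fin 2 → M,
      φ.Realize v ↔ (v 0 ∈ U m d ∧ v 1 ∈ U m d) ∧ m j (v 0) ≠ m j (v 1) := by
    intro j
    have h1 := ((hU (α := Fin 2) 0).inter (hU 1)).inter (hA j 0).compl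
    rw [Set.empty_definable_iff] at h1
    obtain ⟨φ, hφ⟩ := h1
    refine ⟨φ, fun v => ?_⟩
    have h2 : φ.Realize v ↔ v ∈ ({u : Fin 2 → M | u 0 ∈ U m d} ∩ {u | u 1 ∈ U m d}) ∩
        (A D m d 0 j)ᶜ := by rw [hφ]; rfl
    rw [h2]
    constructor
    · rintro ⟨⟨h3, h4⟩, h5⟩
      refine ⟨⟨h3, h4⟩, fun h6 => h5 ⟨?_, h6⟩⟩
      intro k
      fin_cases k
      · exact h3
      · exact h4
    · rintro ⟨h3, h4⟩
      exact ⟨h3, fun h5 => h4 h5.2⟩
  choose ρ hρ using hρ
  refine not_categorical card_lang ρ ?_ ?_ ?_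
  · intro j v hv
    rw [hρ] at hv ⊢
    refine ⟨hv.1, fun h1 => hv.2 ?_⟩
    rw [h.m_succ, h.m_succ, h1]
  · intro j
    obtain ⟨x, hx, y, hy, hxy⟩ := h.exists_ne hD j
    refine ⟨![x, y], ?_⟩
    rw [hρ]
    exact ⟨⟨hx, hy⟩, hxy⟩
  · intro v
    by_cases hv : v 0 ∈ U m d ∧ v 1 ∈ U m d
    · obtain ⟨j, hj⟩ := h.eventually_eq hD hv.1 hv.2
      refine ⟨j, ?_⟩
      rw [hρ]
      exact fun h1 => h1.2 hj
    · refine ⟨0, ?_⟩
      rw [hρ]
      exact fun h1 => hv h1.1

end Pool.Agent.Lib.MP_b29b59_lc
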