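import Mathlib.ModelTheory.Satisfiability
import Mathlib.ModelTheory.Definability
import Mathlib.ModelTheory.Order
import Mathlib.Order.Interval.Set.OrdConnected

/-! The notions of the question, for structures in Mathlib's sense. -/

open FirstOrder FirstOrder.Language

namespace Pool.Agent.Lib.MP_b29b59_lc

/-- Every subset of `M` definable with parameters from `M` is a finite union of convex sets. -/
def WeaklyOMinimal (L : FirstOrder.Language.{0, 0}) (M : Type) [LinearOrder M] [L.Structure M] :
    Prop :=
  ∀ S : Set M, (Set.univ : Set M).Definable₁ L S →
    ∃ F : Set (Set M), F.Finite ∧ (∀ C ∈ F, C.OrdConnected) ∧ ⋃₀ F = S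

/-- Any two countably infinite models of the complete theory of `M` are isomorphic. -/
def CountablyCategorical (L : FirstOrder.Language.{0, 0}) (M : Type) [L.Structure M] : Prop :=
  Cardinal.Categorical.{0, 0, 0} Cardinal.aleph0 (L.completeTheory M)

/-- A single relation symbol, of arity one. -/
inductive PredSym : ℕ → Type
  | U : PredSym 1

/-- The language with one unary predicate symbol. -/
def predLang : FirstOrder.Language.{0, 0} := ⟨fun _ => Empty, PredSym⟩

/-- The structure on `M` in which the unary predicate is interpreted as `U`. -/
@[reducible] def predStructure {M : Type} (U : Set M) : predLang.Structure M where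
  funMap := fun f _ => Empty.elim f
  RelMap := fun {_} r v => match r with
    | .U => v 0 ∈ U

/-- The expansion `(M, U)` of the `L`-structure `M` by a unary predicate interpreted as `U` is
countably categorical. -/
def ExpansionCountablyCategorical (L : FirstOrder.Language.{0, 0}) (M : Type) [L.Structure M]
    (U : Set M) : Prop :=
  @CountablyCategorical (L.sum predLang) M (@Language.sumStructure L predLang M _ (predStructure U))

end Pool.Agent.Lib.MP_b29b59_lc
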