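import Mathlib.Order.BoundedOrder.Basic
import Mathlib.Order.Interval.Set.OrdConnected
import Mathlib.Data.Set.Finite.Lattice
import Mathlib.Data.Set.Countable
import Mathlib.Tactic

/-!
# Linear orders with a convex ultrametric valued in the order itself

`D x y` is to be read as the level at which `x` and `y` separate (larger is closer).
-/

namespace Pool.Agent.Lib.MP_b29b59_lc

/-- A convex ultrametric on a bounded linear order `M` with values in `M`; closer points have a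
larger value. The two endpoints are ideal points, at the smallest value from all other points. -/
structure IsUM {M : Type*} [LinearOrder M] [BoundedOrder M] (D : M → M → M) : Prop where
  symm : ∀ x y, D x y = D y x
  top_iff : ∀ x y, D x y = ⊤ ↔ x = y
  mid : ∀ x y z, x ≤ y → y ≤ z → D x z = min (D x y) (D y z)
  bot_left : ∀ x, x ≠ ⊥ → D ⊥ x = ⊥
  top_right : ∀ x, x ≠ ⊤ → D x ⊤ = ⊥
  ne_bot : ∀ x y, x ≠ ⊥ → x ≠ ⊤ → y ≠ ⊥ → y ≠ ⊤ → D x y ≠ ⊥
  right : ∀ x z s, x < z → x ≠ ⊥ → D x z < s → s < ⊤ → ∃ y, x < y ∧ y < z ∧ D x y = s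
  left : ∀ x z s, x < z → z ≠ ⊤ → D x z < s → s < ⊤ → ∃ y, x < y ∧ y < z ∧ D y z = s
  between : ∀ x z, x < z → (x = ⊥ ↔ z = ⊤) → ∃ y, x < y ∧ y < z ∧ D x y = D x z ∧ D y z = D x z

variable {M : Type*} [LinearOrder M] [BoundedOrder M] {D : M → M → M}

theorem IsUM.self (h : IsUM D) (x : M) : D x x = ⊤ := (h.top_iff x x).2 rfl

theorem IsUM.lt_top (h : IsUM D) {x y : M} (hxy : x ≠ y) : D x y < ⊤ :=
  lt_top_iff_ne_top.2 fun he => hxy ((h.top_iff x y).1 he)

/-- A finite graded partial isomorphism. -/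
structure Good (D : M → M → M) (P : ℕ → Set (M × M)) : Prop where
  bot : ∀ i, (⊥, ⊥) ∈ P i
  top : ∀ i, (⊤, ⊤) ∈ P i
  ord : ∀ i a b a' b', (a, b) ∈ P i → (a', b') ∈ P i → (a < a' ↔ b < b')
  clo : ∀ i a b a' b', (a, b) ∈ P i → (a', b') ∈ P i → (D a a', D b b') ∈ P (i + 1)
  fin : ∀ i, (P i).Finite
  triv : ∃ N, ∀ i, N ≤ i → ∀ t ∈ P i, t = (⊥, ⊥) ∨ t = (⊤, ⊤)

namespace Good

variable {P : ℕ → Set (M × M)}

theorem min_mem (h : Good D P) {i : ℕ} {a b a' b' : M} (h1 : (a, b) ∈ P i)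
    (h2 : (a', b') ∈ P i) : (min a a', min b b') ∈ P i := by
  have h3 := h.ord i a b a' b' h1 h2
  rcases lt_or_ge a a' with h4 | h4
  · rw [min_eq_left h4.le, min_eq_left (h3.1 h4).le]; exact h1
  · have h5 : b' ≤ b := not_lt.1 fun h6 => absurd (h3.2 h6) (not_lt.2 h4)
    rw [min_eq_right h4, min_eq_right h5]; exact h2

theorem le_iff (h : Good D P) {i : ℕ} {a b a' b' : M} (h1 : (a, b) ∈ P i)
    (h2 : (a', b') ∈ P i) : a ≤ a' ↔ b ≤ b' := by
  rw [← not_lt, ← not_lt, h.ord i a' b' a b h2 h1]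

theorem eq_iff (h : Good D P) {i : ℕ} {a b a' b' : M} (h1 : (a, b) ∈ P i)
    (h2 : (a', b') ∈ P i) : a = a' ↔ b = b' := by
  rw [le_antisymm_iff, le_antisymm_iff, h.le_iff h1 h2, h.le_iff h2 h1]

theorem insert (hD : IsUM D) (h : Good D P) (i : ℕ) {x y p q p' q' : M}
    (hp : (p, p') ∈ P i) (hq : (q, q') ∈ P i)
    (hgap : ∀ a b, (a, b) ∈ P i → a ≤ p ∨ q ≤ a)
    (hx1 : p < x) (hx2 : x < q) (hy1 : p' < y) (hy2 : y < q')
    (h1 : (D p x, D p' y) ∈ P (i + 1)) (h2 : (D x q, D y q') ∈ P (i + 1)) :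
    Good D (Function.update P i (Insert.insert (x, y) (P i))) := by
  -- distances from the new point
  have hdist : ∀ a b, (a, b) ∈ P i → (D a x, D b y) ∈ P (i + 1) := by
    intro a b hab
    rcases hgap a b hab with h3 | h3
    · have h4 : b ≤ p' := (h.le_iff hab hp).1 h3
      rw [hD.mid a p x h3 hx1.le, hD.mid b p' y h4 hy1.le]
      exact h.min_mem (h.clo i _ _ _ _ hab hp) h1
    · have h4 : q' ≤ b := (h.le_iff hq hab).1 h3
      rw [hD.symm a x, hD.symm b y, hD.mid x q a hx2.le h3, hD.mid y q' b hy2.le h4]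
      exact h.min_mem h2 (h.clo i _ _ _ _ hq hab)
  have hlt : ∀ a b, (a, b) ∈ P i → (a < x ↔ b < y) := by
    intro a b hab
    rcases hgap a b hab with h3 | h3
    · exact iff_of_true (h3.trans_lt hx1) (((h.le_iff hab hp).1 h3).trans_lt hy1)
    · exact iff_of_false (not_lt.2 (hx2.le.trans h3))
        (not_lt.2 (hy2.le.trans ((h.le_iff hq hab).1 h3)))
  have hgt : ∀ a b, (a, b) ∈ P i → (x < a ↔ y < b) := by
    intro a b hab
    rcases hgap a b hab with h3 | h3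
    · exact iff_of_false (not_lt.2 (h3.trans hx1.le))
        (not_lt.2 (((h.le_iff hab hp).1 h3).trans hy1.le))
    · exact iff_of_true (hx2.trans_le h3) (hy2.trans_le ((h.le_iff hq hab).1 h3))
  have hsub : ∀ j, P j ⊆ Function.update P i (Insert.insert (x, y) (P i)) j := by
    intro j
    by_cases hj : j = i
    · subst hj
      rw [Function.update_self]
      exact Set.subset_insert _ _
    · rw [Function.update_of_ne hj]
  refine ⟨fun j => hsub j (h.bot j), fun j => hsub j (h.top j), ?_, ?_, ?_, ?_⟩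
  · intro j a b a' b' hab hab'
    by_cases hj : j = i
    · subst hj
      rw [Function.update_self] at hab hab'
      rcases hab with hab | hab <;> rcases hab' with hab' | hab'
      · cases hab; cases hab'; simp
      · cases hab; exact hgt a' b' hab'
      · cases hab'; exact hlt a b hab
      · exact h.ord _ _ _ _ _ hab hab'
    · rw [Function.update_of_ne hj] at hab hab'
      exact h.ord _ _ _ _ _ hab hab'
  · intro j a b a' b' hab hab'
    by_cases hj : j = i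
    · subst hj
      rw [Function.update_self] at hab hab'
      rw [Function.update_of_ne (by omega)]
      rcases hab with hab | hab <;> rcases hab' with hab' | hab'
      · cases hab; cases hab'; rw [hD.self, hD.self]; exact h.top _
      · cases hab; rw [hD.symm, hD.symm y b']; exact hdist a' b' hab'
      · cases hab'; exact hdist a b hab
      · exact h.clo _ _ _ _ _ hab hab'
    · rw [Function.update_of_ne hj] at hab hab'
      exact hsub _ (h.clo _ _ _ _ _ hab hab')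
  · intro j
    by_cases hj : j = i
    · subst hj
      rw [Function.update_self]
      exact (h.fin j).insert _
    · rw [Function.update_of_ne hj]
      exact h.fin j
  · obtain ⟨N, hN⟩ := h.triv
    refine ⟨max N (i + 1), fun j hj => ?_⟩
    have h3 : j ≠ i := by
      have := le_max_right N (i + 1)
      omega
    rw [Function.update_of_ne h3]
    exact hN j ((le_max_left _ _).trans hj)

/-- Neighbours of a point not in the domain. -/
theorem exists_gap (h : Good D P) (i : ℕ) {x : M} (hx : ∀ b, (x, b) ∉ P i) :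
    ∃ p q p' q', (p, p') ∈ P i ∧ (q, q') ∈ P i ∧ (∀ a b, (a, b) ∈ P i → a ≤ p ∨ q ≤ a) ∧
      p < x ∧ x < q := by
  have hne1 : ({t | t ∈ P i ∧ t.1 < x}).Nonempty := by
    refine ⟨(⊥, ⊥), h.bot i, ?_⟩
    refine bot_lt_iff_ne_bot.2 ?_
    rintro rfl
    exact hx _ (h.bot i)
  have hne2 : ({t | t ∈ P i ∧ x < t.1}).Nonempty := by
    refine ⟨(⊤, ⊤), h.top i, ?_⟩
    refine lt_top_iff_ne_top.2 ?_
    rintro rfl
    exact hx _ (h.top i)
  obtain ⟨⟨p, p'⟩, ⟨hp1, hp2⟩, hp3⟩ := Set.exists_max_image _ Prod.fst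
    ((h.fin i).subset fun t ht => ht.1) hne1
  obtain ⟨⟨q, q'⟩, ⟨hq1, hq2⟩, hq3⟩ := Set.exists_min_image _ Prod.fst
    ((h.fin i).subset fun t ht => ht.1) hne2
  refine ⟨p, q, p', q', hp1, hq1, ?_, hp2, hq2⟩
  intro a b hab
  rcases lt_trichotomy a x with h1 | h1 | h1
  · exact Or.inl (hp3 (a, b) ⟨hab, h1⟩)
  · subst h1; exact absurd hab (hx b)
  · exact Or.inr (hq3 (a, b) ⟨hab, h1⟩)

theorem extend_aux (hD : IsUM D) (k : ℕ) : ∀ (P : ℕ → Set (M × M)) (i : ℕ), Good D P →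
    (∀ j, i + k ≤ j → ∀ t ∈ P j, t = (⊥, ⊥) ∨ t = (⊤, ⊤)) → ∀ x, ∃ (P' : ℕ → Set (M × M)) (y : M),
      Good D P' ∧ (∀ j, P j ⊆ P' j) ∧ (∀ j, j < i → P' j = P j) ∧ (x, y) ∈ P' i := by
  induction k with
  | zero =>
    intro P i h htriv x
    by_cases hx : ∃ b, (x, b) ∈ P i
    · obtain ⟨b, hb⟩ := hx
      exact ⟨P, b, h, fun _ => subset_rfl, fun _ _ => rfl, hb⟩
    push Not at hx
    obtain ⟨p, q, p', q', hp, hq, hgap, hpx, hxq⟩ := h.exists_gap i hx
    have hp0 : p = ⊥ := by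
      rcases htriv i (by omega) _ hp with h1 | h1
      · exact congrArg Prod.fst h1
      · have : p = ⊤ := congrArg Prod.fst h1
        subst this
        exact absurd hpx not_top_lt
    have hp0' : p' = ⊥ := ((h.eq_iff hp (h.bot i)).1 hp0)
    have hq0 : q = ⊤ := by
      rcases htriv i (by omega) _ hq with h1 | h1
      · have : q = ⊥ := congrArg Prod.fst h1
        subst this
        exact absurd hxq not_lt_bot
      · exact congrArg Prod.fst h1
    have hq0' : q' = ⊤ := ((h.eq_iff hq (h.top i)).1 hq0)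
    subst hp0 hp0' hq0 hq0'
    obtain ⟨y, hy1, hy2, hy3, hy4⟩ := hD.between (⊥ : M) ⊤ (hpx.trans hxq)
      (iff_of_true rfl rfl)
    refine ⟨_, y, h.insert hD i (x := x) (y := y) hp hq hgap hpx hxq hy1 hy2 ?_ ?_, ?_, ?_, ?_⟩
    · rw [hD.bot_left x hpx.ne', hD.bot_left y hy1.ne']
      exact h.bot _
    · rw [hD.top_right x hxq.ne, hD.top_right y hy2.ne]
      exact h.bot _
    · intro j
      by_cases hj : j = i
      · subst hj
        rw [Function.update_self]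
        exact Set.subset_insert _ _
      · rw [Function.update_of_ne hj]
    · intro j hj
      rw [Function.update_of_ne hj.ne]
    · rw [Function.update_self]
      exact Set.mem_insert _ _
  | succ k ih =>
    intro P i h htriv x
    by_cases hx : ∃ b, (x, b) ∈ P i
    · obtain ⟨b, hb⟩ := hx
      exact ⟨P, b, h, fun _ => subset_rfl, fun _ _ => rfl, hb⟩
    push Not at hx
    obtain ⟨p, q, p', q', hp, hq, hgap, hpx, hxq⟩ := h.exists_gap i hx
    have hpq' : p' < q' := (h.ord i _ _ _ _ hp hq).1 (hpx.trans hxq)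
    have hr := hD.mid p x q hpx.le hxq.le
    have hrmem := h.clo i _ _ _ _ hp hq
    -- it is enough to find one larger partial map and a suitable image
    suffices hs : ∃ (P₁ : ℕ → Set (M × M)) (y : M), Good D P₁ ∧ (∀ j, P j ⊆ P₁ j) ∧
        (∀ j, j < i + 1 → P₁ j = P j) ∧ p' < y ∧ y < q' ∧ (D p x, D p' y) ∈ P₁ (i + 1) ∧
        (D x q, D y q') ∈ P₁ (i + 1) by
      obtain ⟨P₁, y, h1, h2, h3, h4, h5, h6, h7⟩ := hs
      have h8 : P₁ i = P i := h3 i (by omega)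
      refine ⟨_, y, h1.insert hD i (x := x) (y := y) (h2 i hp) (h2 i hq) (by rw [h8]; exact hgap)
        hpx hxq h4 h5 h6 h7, ?_, ?_, ?_⟩
      · intro j
        by_cases hj : j = i
        · subst hj
          rw [Function.update_self]
          exact (h2 j).trans (Set.subset_insert _ _)
        · rw [Function.update_of_ne hj]
          exact h2 j
      · intro j hj
        rw [Function.update_of_ne hj.ne]
        exact h3 j (by omega)
      · rw [Function.update_self]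
        exact Set.mem_insert _ _
    rcases lt_trichotomy (D x q) (D p x) with hc | hc | hc
    · -- the left distance is larger
      have hr' : D p q = D x q := by rw [hr, min_eq_right hc.le]
      have hp0 : p ≠ ⊥ := by
        rintro rfl
        rw [hD.bot_left x hpx.ne'] at hc
        exact not_lt_bot hc
      obtain ⟨P₁, t, g1, g2, g3, g4⟩ := ih P (i + 1) h
        (fun j hj => htriv j (by omega)) (D p x)
      have ht1 : D p' q' < t := (g1.ord _ _ _ _ _ (g2 _ hrmem) g4).1 (by rw [hr']; exact hc)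
      have ht2 : t < ⊤ := (g1.ord _ _ _ _ _ g4 (g1.top _)).1 (hD.lt_top hpx.ne)
      have hp0' : p' ≠ ⊥ := fun h0 => hp0 ((h.eq_iff hp (h.bot i)).2 h0)
      obtain ⟨y, hy1, hy2, hy3⟩ := hD.right p' q' t hpq' hp0' ht1 ht2
      refine ⟨P₁, y, g1, g2, g3, hy1, hy2, by rw [hy3]; exact g4, ?_⟩
      have hr2 := hD.mid p' y q' hy1.le hy2.le
      have hr3 : D y q' = D p' q' := by
        rw [hy3] at hr2
        rcases min_choice t (D y q') with h5 | h5
        · rw [h5] at hr2; exact absurd hr2 ht1.ne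
        · rw [h5] at hr2; exact hr2.symm
      rw [hr3, ← hr']
      exact g2 _ hrmem
    · -- both distances are equal
      have hr' : D p q = D p x := by rw [hr, hc, min_self]
      have hends : p = ⊥ ↔ q = ⊤ := by
        constructor
        · rintro rfl
          by_contra hq0
          rw [hD.bot_left x hpx.ne'] at hc
          exact hD.ne_bot x q hpx.ne' (hxq.trans_le le_top).ne ((bot_le.trans_lt hxq).ne') hq0 hc
        · rintro rfl
          by_contra hp0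
          rw [hD.top_right x hxq.ne] at hc
          exact hD.ne_bot p x hp0 (hpx.trans_le le_top).ne ((bot_le.trans_lt hpx).ne') hxq.ne
            hc.symm
      have hends' : p' = ⊥ ↔ q' = ⊤ := by
        rw [← h.eq_iff hp (h.bot i), ← h.eq_iff hq (h.top i)]
        exact hends
      obtain ⟨y, hy1, hy2, hy3, hy4⟩ := hD.between p' q' hpq' hends'
      refine ⟨P, y, h, fun _ => subset_rfl, fun _ _ => rfl, hy1, hy2, ?_, ?_⟩
      · rw [hy3, ← hr']; exact hrmem
      · rw [hy4, hc, ← hr']; exact hrmem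
    · -- the right distance is larger
      have hr' : D p q = D p x := by rw [hr, min_eq_left hc.le]
      have hq0 : q ≠ ⊤ := by
        rintro rfl
        rw [hD.top_right x hxq.ne] at hc
        exact not_lt_bot hc
      obtain ⟨P₁, t, g1, g2, g3, g4⟩ := ih P (i + 1) h
        (fun j hj => htriv j (by omega)) (D x q)
      have ht1 : D p' q' < t := (g1.ord _ _ _ _ _ (g2 _ hrmem) g4).1 (by rw [hr']; exact hc)
      have ht2 : t < ⊤ := (g1.ord _ _ _ _ _ g4 (g1.top _)).1 (hD.lt_top hxq.ne)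
      have hq0' : q' ≠ ⊤ := fun h0 => hq0 ((h.eq_iff hq (h.top i)).2 h0)
      obtain ⟨y, hy1, hy2, hy3⟩ := hD.left p' q' t hpq' hq0' ht1 ht2
      refine ⟨P₁, y, g1, g2, g3, hy1, hy2, ?_, by rw [hy3]; exact g4⟩
      have hr2 := hD.mid p' y q' hy1.le hy2.le
      have hr3 : D p' y = D p' q' := by
        rw [hy3] at hr2
        rcases min_choice (D p' y) t with h5 | h5
        · rw [h5] at hr2; exact hr2.symm
        · rw [h5] at hr2; exact absurd hr2 ht1.ne
      rw [hr3, ← hr']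
      exact g2 _ hrmem

theorem extend (hD : IsUM D) (h : Good D P) (i : ℕ) (x : M) :
    ∃ (P' : ℕ → Set (M × M)) (y : M),
      Good D P' ∧ (∀ j, P j ⊆ P' j) ∧ (∀ j, j < i → P' j = P j) ∧ (x, y) ∈ P' i := by
  obtain ⟨N, hN⟩ := h.triv
  exact extend_aux hD N P i h (fun j hj => hN j (by omega)) x

/-- The inverse partial isomorphism. -/
def inv (P : ℕ → Set (M × M)) : ℕ → Set (M × M) := fun i => Prod.swap '' (P i)

omit [LinearOrder M] [BoundedOrder M] in
theorem mem_inv {P : ℕ → Set (M × M)} {i : ℕ} {a b : M} : (a, b) ∈ inv P i ↔ (b, a) ∈ P i := by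
  constructor
  · rintro ⟨⟨c, d⟩, h1, h2⟩
    cases h2
    exact h1
  · intro h
    exact ⟨(b, a), h, rfl⟩

theorem good_inv (h : Good D P) : Good D (inv P) where
  bot i := mem_inv.2 (h.bot i)
  top i := mem_inv.2 (h.top i)
  ord i a b a' b' h1 h2 := (h.ord i b a b' a' (mem_inv.1 h1) (mem_inv.1 h2)).symm
  clo i a b a' b' h1 h2 := mem_inv.2 (h.clo i b a b' a' (mem_inv.1 h1) (mem_inv.1 h2))
  fin i := (h.fin i).image _
  triv := by
    obtain ⟨N, hN⟩ := h.triv
    refine ⟨N, fun i hi t ht => ?_⟩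
    obtain ⟨⟨a, b⟩, h1, rfl⟩ := ht
    rcases hN i hi _ h1 with h2 | h2
    · left; rw [h2]; rfl
    · right; rw [h2]; rfl

theorem extend_right (hD : IsUM D) (h : Good D P) (i : ℕ) (y : M) :
    ∃ (P' : ℕ → Set (M × M)) (x : M), Good D P' ∧ (∀ j, P j ⊆ P' j) ∧ (x, y) ∈ P' i := by
  obtain ⟨P', x, h1, h2, _, h4⟩ := h.good_inv.extend hD i y
  refine ⟨inv P', x, h1.good_inv, ?_, mem_inv.2 h4⟩
  rintro j ⟨a, b⟩ hab
  exact mem_inv.2 (h2 j (mem_inv.2 hab))

/-- Every finite graded partial isomorphism extends to a graded automorphism. -/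
theorem exists_aut [Countable M] (hD : IsUM D) (h : Good D P) :
    ∃ g : ℕ → (M ≃o M), (∀ i x y, g (i + 1) (D x y) = D (g i x) (g i y)) ∧
      ∀ i a b, (a, b) ∈ P i → g i a = b := by
  have hstep : ∀ (P : {P : ℕ → Set (M × M) // Good D P}) (t : ℕ × M),
      ∃ P' : {P : ℕ → Set (M × M) // Good D P}, (∀ j, P.1 j ⊆ P'.1 j) ∧
        (∃ y, (t.2, y) ∈ P'.1 t.1) ∧ (∃ x, (x, t.2) ∈ P'.1 t.1) := by
    intro P t
    obtain ⟨P₁, y, h1, h2, _, h4⟩ := P.2.extend hD t.1 t.2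
    obtain ⟨P₂, x, g1, g2, g3⟩ := h1.extend_right hD t.1 t.2
    exact ⟨⟨P₂, g1⟩, fun j => (h2 j).trans (g2 j), ⟨y, g2 _ h4⟩, ⟨x, g3⟩⟩
  choose st hst using hstep
  obtain ⟨en, hen⟩ : ∃ en : ℕ → ℕ × M, Function.Surjective en := exists_surjective_nat _
  let G : ℕ → {P : ℕ → Set (M × M) // Good D P} :=
    fun n => Nat.rec ⟨P, h⟩ (fun n Q => st Q (en n)) n
  have hG : ∀ n, G (n + 1) = st (G n) (en n) := fun n => rfl
  have hmono : ∀ j, Monotone fun n => (G n).1 j := by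
    intro j
    apply monotone_nat_of_le_succ
    intro n
    rw [hG]
    exact (hst (G n) (en n)).1 j
  -- the union relation
  let R : ℕ → M → M → Prop := fun i a b => ∃ n, (a, b) ∈ (G n).1 i
  have hcommon : ∀ {i i' a b a' b'}, R i a b → R i' a' b' →
      ∃ n, (a, b) ∈ (G n).1 i ∧ (a', b') ∈ (G n).1 i' := by
    rintro i i' a b a' b' ⟨n, hn⟩ ⟨m, hm⟩
    exact ⟨max n m, hmono i (le_max_left _ _) hn, hmono i' (le_max_right _ _) hm⟩
  have htotal : ∀ i a, ∃ b, R i a b := by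
    intro i a
    obtain ⟨n, hn⟩ := hen (i, a)
    obtain ⟨y, hy⟩ := (hst (G n) (en n)).2.1
    rw [hn] at hy
    exact ⟨y, n + 1, by rw [hG, hn]; exact hy⟩
  have hsurj : ∀ i b, ∃ a, R i a b := by
    intro i b
    obtain ⟨n, hn⟩ := hen (i, b)
    obtain ⟨x, hx⟩ := (hst (G n) (en n)).2.2
    rw [hn] at hx
    exact ⟨x, n + 1, by rw [hG, hn]; exact hx⟩
  have hle : ∀ {i a b a' b'}, R i a b → R i a' b' → (a ≤ a' ↔ b ≤ b') := by
    intro i a b a' b' h1 h2
    obtain ⟨n, h3, h4⟩ := hcommon h1 h2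
    exact (G n).2.le_iff h3 h4
  have heq : ∀ {i a b a' b'}, R i a b → R i a' b' → (a = a' ↔ b = b') := by
    intro i a b a' b' h1 h2
    obtain ⟨n, h3, h4⟩ := hcommon h1 h2
    exact (G n).2.eq_iff h3 h4
  have hD' : ∀ {i a b a' b'}, R i a b → R i a' b' → R (i + 1) (D a a') (D b b') := by
    intro i a b a' b' h1 h2
    obtain ⟨n, h3, h4⟩ := hcommon h1 h2
    exact ⟨n, (G n).2.clo _ _ _ _ _ h3 h4⟩
  choose f hf using htotal
  choose f' hf' using hsurj
  let g : ℕ → (M ≃o M) := fun i =>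
    { toFun := f i
      invFun := f' i
      left_inv := fun a => (heq (hf' i (f i a)) (hf i a)).2 rfl
      right_inv := fun b => (heq (hf i (f' i b)) (hf' i b)).1 rfl
      map_rel_iff' := fun {a b} => (hle (hf i a) (hf i b)).symm }
  refine ⟨g, ?_, ?_⟩
  · intro i x y
    exact (heq (hf (i + 1) (D x y)) (hD' (hf i x) (hf i y))).1 rfl
  · intro i a b hab
    exact (heq (hf i a) ⟨0, hab⟩).1 rfl

end Good

/-- The identity on a graded set. -/
def idP (X : ℕ → Set M) : ℕ → Set (M × M) := fun i => {t | t.1 ∈ X i ∧ t.2 = t.1}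

omit [LinearOrder M] [BoundedOrder M] in
theorem mem_idP {X : ℕ → Set M} {i : ℕ} {a b : M} : (a, b) ∈ idP X i ↔ a ∈ X i ∧ b = a := Iff.rfl

/-- The identity on the domain of a finite graded partial isomorphism. -/
theorem Good.id_dom {P : ℕ → Set (M × M)} (h : Good D P) :
    Good D (idP fun i => Prod.fst '' (P i)) where
  bot i := ⟨⟨_, h.bot i, rfl⟩, rfl⟩
  top i := ⟨⟨_, h.top i, rfl⟩, rfl⟩
  ord := by
    rintro i a b a' b' ⟨_, h1⟩ ⟨_, h2⟩
    simp only at h1 h2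
    rw [h1, h2]
  clo := by
    rintro i a b a' b' ⟨⟨⟨c, d⟩, h3, h4⟩, h1⟩ ⟨⟨⟨c', d'⟩, h3', h4'⟩, h2⟩
    simp only at h1 h2 h4 h4'
    subst h1 h2 h4 h4'
    exact ⟨⟨_, h.clo _ _ _ _ _ h3 h3', rfl⟩, rfl⟩
  fin i := by
    refine (((h.fin i).image Prod.fst).image fun a => (a, a)).subset ?_
    rintro ⟨a, b⟩ ⟨h1, h2⟩
    simp only at h1 h2
    exact ⟨a, h1, by rw [h2]⟩
  triv := by
    obtain ⟨N, hN⟩ := h.triv
    refine ⟨N, ?_⟩
    rintro i hi ⟨a, b⟩ ⟨⟨t, h1, h2⟩, h3⟩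
    simp only at h2 h3
    subst h2 h3
    rcases hN i hi _ h1 with h2 | h2
    · left; rw [h2]
    · right; rw [h2]

/-- The cells over a finite closed graded set. -/
theorem cells_aux (hD : IsUM D) {X : ℕ → Set M} (hX : Good D (idP X)) (k : ℕ) : ∀ i,
    (∀ j, i + k ≤ j → ∀ x ∈ X j, x = ⊥ ∨ x = ⊤) →
    ∃ 𝒞 : Set (Set M), 𝒞.Finite ∧ (∀ C ∈ 𝒞, C.OrdConnected) ∧ (∀ x, ∃ C ∈ 𝒞, x ∈ C) ∧
      ∀ C ∈ 𝒞, ∀ x ∈ C, ∀ x' ∈ C, ∃ P, Good D P ∧ (∀ j, idP X j ⊆ P j) ∧
        (∀ j, j < i → P j = idP X j) ∧ (x, x') ∈ P i := by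
  -- the cells at level `i`, given cells at level `i + 1`
  have key : ∀ (i : ℕ) (𝒟 : Set (Set M)), 𝒟.Finite → (∀ C ∈ 𝒟, C.OrdConnected) →
      (∀ p q x, p ∈ X i → q ∈ X i → p < x → x < q → D x q < D p x → ∃ C ∈ 𝒟, D p x ∈ C) →
      (∀ p q x, p ∈ X i → q ∈ X i → p < x → x < q → D p x < D x q → ∃ C ∈ 𝒟, D x q ∈ C) →
      (∀ C ∈ 𝒟, ∀ x ∈ C, ∀ x' ∈ C, ∃ P, Good D P ∧ (∀ j, idP X j ⊆ P j) ∧
        (∀ j, j < i + 1 → P j = idP X j) ∧ (x, x') ∈ P (i + 1)) →
      ∃ 𝒞 : Set (Set M), 𝒞.Finite ∧ (∀ C ∈ 𝒞, C.OrdConnected) ∧ (∀ x, ∃ C ∈ 𝒞, x ∈ C) ∧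
      ∀ C ∈ 𝒞, ∀ x ∈ C, ∀ x' ∈ C, ∃ P, Good D P ∧ (∀ j, idP X j ⊆ P j) ∧
        (∀ j, j < i → P j = idP X j) ∧ (x, x') ∈ P i := by
    intro i 𝒟 hfin hconv hcovA hcovB hrel
    have hXfin : (X i).Finite := by
      refine ((hX.fin i).image Prod.fst).subset ?_
      intro x hx
      exact ⟨(x, x), ⟨hx, rfl⟩, rfl⟩
    let S : M → Set M := fun a => {a}
    let Cc : M × M → Set M := fun t => {x | t.1 < x ∧ x < t.2 ∧ (∀ a ∈ X i, a ≤ t.1 ∨ t.2 ≤ a) ∧
      D t.1 x = D t.1 t.2 ∧ D x t.2 = D t.1 t.2}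
    let Ca : (M × M) × Set M → Set M := fun t => {x | t.1.1 < x ∧ x < t.1.2 ∧
      (∀ a ∈ X i, a ≤ t.1.1 ∨ t.1.2 ≤ a) ∧ D t.1.1 t.1.2 < D t.1.1 x ∧ D t.1.1 x ∈ t.2}
    let Cb : (M × M) × Set M → Set M := fun t => {x | t.1.1 < x ∧ x < t.1.2 ∧
      (∀ a ∈ X i, a ≤ t.1.1 ∨ t.1.2 ≤ a) ∧ D t.1.1 t.1.2 < D x t.1.2 ∧ D x t.1.2 ∈ t.2}
    refine ⟨S '' (X i) ∪ Cc '' (X i ×ˢ X i) ∪ Ca '' ((X i ×ˢ X i) ×ˢ 𝒟) ∪
      Cb '' ((X i ×ˢ X i) ×ˢ 𝒟), ?_, ?_, ?_, ?_⟩
    · exact (((hXfin.image S).union ((hXfin.prod hXfin).image Cc)).union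
        (((hXfin.prod hXfin).prod hfin).image Ca)).union
        (((hXfin.prod hXfin).prod hfin).image Cb)
    · -- convexity
      rintro C (((⟨a, ha, rfl⟩ | ⟨⟨p, q⟩, hpq, rfl⟩) | ⟨⟨⟨p, q⟩, C'⟩, ⟨hpq, hC'⟩, rfl⟩) |
        ⟨⟨⟨p, q⟩, C'⟩, ⟨hpq, hC'⟩, rfl⟩)
      · exact Set.ordConnected_singleton
      · constructor
        rintro x ⟨hx1, hx2, hx3, hx4, hx5⟩ z ⟨hz1, hz2, hz3, hz4, hz5⟩ y ⟨hxy, hyz⟩
        simp only at hx1 hx2 hx3 hx4 hx5 hz1 hz2 hz3 hz4 hz5
        have hy1 := hx1.trans_le hxy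
        have hy2 := hyz.trans_lt hz2
        have e1 := hD.mid p y q hy1.le hy2.le
        have e2 := hD.mid p x y hx1.le hxy
        have e3 := hD.mid y z q hyz hz2.le
        refine ⟨hy1, hy2, hx3, ?_, ?_⟩
        · refine le_antisymm ?_ ?_
          · rw [e2, hx4]; exact min_le_left _ _
          · rw [e1]; exact min_le_left _ _
        · refine le_antisymm ?_ ?_
          · rw [e3, hz5]; exact min_le_right _ _
          · rw [e1]; exact min_le_right _ _
      · have := hconv C' hC'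
        constructor
        rintro x ⟨hx1, hx2, hx3, hx4, hx5⟩ z ⟨hz1, hz2, hz3, hz4, hz5⟩ y ⟨hxy, hyz⟩
        simp only at hx1 hx2 hx3 hx4 hx5 hz1 hz2 hz3 hz4 hz5
        have hy1 := hx1.trans_le hxy
        have hy2 := hyz.trans_lt hz2
        have e2 := hD.mid p x y hx1.le hxy
        have e3 := hD.mid p y z hy1.le hyz
        have e4 : D p y ≤ D p x := by rw [e2]; exact min_le_left _ _
        have e5 : D p z ≤ D p y := by rw [e3]; exact min_le_left _ _
        exact ⟨hy1, hy2, hx3, hz4.trans_le e5, this.out hz5 hx5 ⟨e5, e4⟩⟩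
      · have := hconv C' hC'
        constructor
        rintro x ⟨hx1, hx2, hx3, hx4, hx5⟩ z ⟨hz1, hz2, hz3, hz4, hz5⟩ y ⟨hxy, hyz⟩
        simp only at hx1 hx2 hx3 hx4 hx5 hz1 hz2 hz3 hz4 hz5
        have hy1 := hx1.trans_le hxy
        have hy2 := hyz.trans_lt hz2
        have e2 := hD.mid x y q hxy hy2.le
        have e3 := hD.mid y z q hyz hz2.le
        have e4 : D x q ≤ D y q := by rw [e2]; exact min_le_right _ _
        have e5 : D y q ≤ D z q := by rw [e3]; exact min_le_right _ _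
        exact ⟨hy1, hy2, hx3, hx4.trans_le e4, this.out hx5 hz5 ⟨e4, e5⟩⟩
    · -- covering
      intro x
      by_cases hx : x ∈ X i
      · exact ⟨{x}, Or.inl (Or.inl (Or.inl ⟨x, hx, rfl⟩)), rfl⟩
      obtain ⟨p, q, p', q', hp, hq, hgap, hpx, hxq⟩ := hX.exists_gap i (x := x) fun b hb => hx hb.1
      have hpX : p ∈ X i := hp.1
      have hqX : q ∈ X i := hq.1
      have hgap' : ∀ a ∈ X i, a ≤ p ∨ q ≤ a := fun a ha => hgap a a ⟨ha, rfl⟩
      have hr := hD.mid p x q hpx.le hxq.le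
      rcases lt_trichotomy (D x q) (D p x) with hc | hc | hc
      · obtain ⟨C, hC, hC'⟩ := hcovA p q x hpX hqX hpx hxq hc
        refine ⟨Ca ((p, q), C), Or.inl (Or.inr ⟨((p, q), C), ⟨⟨hpX, hqX⟩, hC⟩, rfl⟩),
          hpx, hxq, hgap', ?_, hC'⟩
        simp only
        rw [hr, min_eq_right hc.le]; exact hc
      · refine ⟨Cc (p, q), Or.inl (Or.inl (Or.inr ⟨(p, q), ⟨hpX, hqX⟩, rfl⟩)),
          hpx, hxq, hgap', ?_, ?_⟩
        · simp only; rw [hr, hc, min_self]
        · simp only; rw [hr, hc, min_self]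
      · obtain ⟨C, hC, hC'⟩ := hcovB p q x hpX hqX hpx hxq hc
        refine ⟨Cb ((p, q), C), Or.inr ⟨((p, q), C), ⟨⟨hpX, hqX⟩, hC⟩, rfl⟩,
          hpx, hxq, hgap', ?_, hC'⟩
        simp only
        rw [hr, min_eq_left hc.le]; exact hc
    · -- any two points of a cell are conjugate
      have hins : ∀ (p q x x' : M) (P : ℕ → Set (M × M)), p ∈ X i → q ∈ X i →
          (∀ a ∈ X i, a ≤ p ∨ q ≤ a) → p < x → x < q → p < x' → x' < q → Good D P →
          (∀ j, idP X j ⊆ P j) → (∀ j, j < i + 1 → P j = idP X j) →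
          (D p x, D p x') ∈ P (i + 1) → (D x q, D x' q) ∈ P (i + 1) →
          ∃ P, Good D P ∧ (∀ j, idP X j ⊆ P j) ∧
            (∀ j, j < i → P j = idP X j) ∧ (x, x') ∈ P i := by
        intro p q x x' P hp hq hgap h1 h2 h3 h4 h5 h6 h7 h8 h9
        have h10 : P i = idP X i := h7 i (by omega)
        refine ⟨_, h5.insert hD i (x := x) (y := x') (h6 i ⟨hp, rfl⟩) (h6 i ⟨hq, rfl⟩)
          (by rw [h10]; exact fun a b hab => hgap a hab.1) h1 h2 h3 h4 h8 h9, ?_, ?_, ?_⟩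
        · intro j
          by_cases hj : j = i
          · subst hj
            rw [Function.update_self]
            exact (h6 j).trans (Set.subset_insert _ _)
          · rw [Function.update_of_ne hj]
            exact h6 j
        · intro j hj
          rw [Function.update_of_ne hj.ne]
          exact h7 j (by omega)
        · rw [Function.update_self]
          exact Set.mem_insert _ _
      rintro C (((⟨a, ha, rfl⟩ | ⟨⟨p, q⟩, ⟨hp, hq⟩, rfl⟩) |
        ⟨⟨⟨p, q⟩, C'⟩, ⟨⟨hp, hq⟩, hC'⟩, rfl⟩) | ⟨⟨⟨p, q⟩, C'⟩, ⟨⟨hp, hq⟩, hC'⟩, rfl⟩)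
      · rintro x hx x' hx'
        obtain rfl : x = a := hx
        obtain rfl : x' = x := hx'
        exact ⟨idP X, hX, fun _ => subset_rfl, fun _ _ => rfl, ⟨ha, rfl⟩⟩
      · rintro x ⟨hx1, hx2, hx3, hx4, hx5⟩ z ⟨hz1, hz2, hz3, hz4, hz5⟩
        simp only at hp hq hx1 hx2 hx3 hx4 hx5 hz1 hz2 hz3 hz4 hz5
        have hr := hX.clo i p p q q ⟨hp, rfl⟩ ⟨hq, rfl⟩
        refine hins p q x z (idP X) hp hq hx3 hx1 hx2 hz1 hz2 hX (fun _ => subset_rfl)
          (fun _ _ => rfl) ?_ ?_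
        · rw [hx4, hz4]; exact hr
        · rw [hx5, hz5]; exact hr
      · rintro x ⟨hx1, hx2, hx3, hx4, hx5⟩ z ⟨hz1, hz2, hz3, hz4, hz5⟩
        simp only at hp hq hx1 hx2 hx3 hx4 hx5 hz1 hz2 hz3 hz4 hz5
        obtain ⟨P, g1, g2, g3, g4⟩ := hrel C' hC' _ hx5 _ hz5
        have e : ∀ y, p < y → y < q → D p q < D p y → D y q = D p q := by
          intro y h1 h2 h3
          have e1 := hD.mid p y q h1.le h2.le
          rcases min_choice (D p y) (D y q) with h5 | h5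
          · rw [h5] at e1; exact absurd e1 h3.ne
          · rw [h5] at e1; exact e1.symm
        refine hins p q x z P hp hq hx3 hx1 hx2 hz1 hz2 g1 g2 g3 g4 ?_
        rw [e x hx1 hx2 hx4, e z hz1 hz2 hz4]
        exact g2 _ (hX.clo i p p q q ⟨hp, rfl⟩ ⟨hq, rfl⟩)
      · rintro x ⟨hx1, hx2, hx3, hx4, hx5⟩ z ⟨hz1, hz2, hz3, hz4, hz5⟩
        simp only at hp hq hx1 hx2 hx3 hx4 hx5 hz1 hz2 hz3 hz4 hz5
        obtain ⟨P, g1, g2, g3, g4⟩ := hrel C' hC' _ hx5 _ hz5
        have e : ∀ y, p < y → y < q → D p q < D y q → D p y = D p q := by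
          intro y h1 h2 h3
          have e1 := hD.mid p y q h1.le h2.le
          rcases min_choice (D p y) (D y q) with h5 | h5
          · rw [h5] at e1; exact e1.symm
          · rw [h5] at e1; exact absurd e1 h3.ne
        refine hins p q x z P hp hq hx3 hx1 hx2 hz1 hz2 g1 g2 g3 ?_ g4
        rw [e x hx1 hx2 hx4, e z hz1 hz2 hz4]
        exact g2 _ (hX.clo i p p q q ⟨hp, rfl⟩ ⟨hq, rfl⟩)
  induction k with
  | zero =>
    intro i htriv
    refine key i ∅ Set.finite_empty (by simp) ?_ ?_ (by simp)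
    · intro p q x hp hq hpx hxq hlt
      rcases htriv i (by omega) p hp with h | h
      · subst h
        rw [hD.bot_left x hpx.ne'] at hlt
        exact absurd hlt not_lt_bot
      · subst h; exact absurd hpx not_top_lt
    · intro p q x hp hq hpx hxq hlt
      rcases htriv i (by omega) q hq with h | h
      · subst h; exact absurd hxq not_lt_bot
      · subst h
        rw [hD.top_right x hxq.ne] at hlt
        exact absurd hlt not_lt_bot
  | succ k ih =>
    intro i htriv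
    obtain ⟨𝒟, h1, h2, h3, h4⟩ := ih (i + 1) (fun j hj => htriv j (by omega))
    exact key i 𝒟 h1 h2 (fun p q x _ _ _ _ _ => h3 _) (fun p q x _ _ _ _ _ => h3 _) h4

theorem cells (hD : IsUM D) {X : ℕ → Set M} (hX : Good D (idP X)) (i : ℕ) :
    ∃ 𝒞 : Set (Set M), 𝒞.Finite ∧ (∀ C ∈ 𝒞, C.OrdConnected) ∧ (∀ x, ∃ C ∈ 𝒞, x ∈ C) ∧
      ∀ C ∈ 𝒞, ∀ x ∈ C, ∀ x' ∈ C, ∃ P, Good D P ∧ (∀ j, idP X j ⊆ P j) ∧ (x, x') ∈ P i := by
  obtain ⟨N, hN⟩ := hX.triv
  obtain ⟨𝒞, h1, h2, h3, h4⟩ := cells_aux hD hX N i (by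
    intro j hj x hx
    rcases hN j (by omega) (x, x) ⟨hx, rfl⟩ with h | h
    · exact Or.inl (congrArg Prod.fst h)
    · exact Or.inr (congrArg Prod.fst h))
  refine ⟨𝒞, h1, h2, h3, fun C hC x hx x' hx' => ?_⟩
  obtain ⟨P, g1, g2, _, g4⟩ := h4 C hC x hx x' hx'
  exact ⟨P, g1, g2, g4⟩

end Pool.Agent.Lib.MP_b29b59_lc
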