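import Pool.Agent.Lib.MP_b29b59_lc.Defs
import Pool.Agent.Lib.MP_b29b59_lc.UM
import Pool.Agent.Lib.MP_b29b59_lc.Categorical

/-! The structure of all iterated comparisons. -/

open FirstOrder FirstOrder.Language

namespace Pool.Agent.Lib.MP_b29b59_lc

/-- The relation symbols: the order and, for each `i`, a symbol of arity `i + 2`. -/
inductive Sym : ℕ → Type
  | le : Sym 2
  | s (i : ℕ) : Sym (i + 2)

/-- The language. -/
def lang : FirstOrder.Language.{0, 0} := ⟨fun _ => Empty, Sym⟩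

instance : lang.IsOrdered := ⟨Sym.le⟩

/-- Iterated comparison: the tuple is `(z_i, ..., z_1, x, y)`, and the values of `x` and `y` are
compared after `i` steps, each replacing the value `f t` of a point `t` by `D (f t) (f z)`. -/
def SR {M : Type} (D : M → M → M) : (i : ℕ) → (M → M) → (Fin (i + 2) → M) → Prop
  | 0, f, v => f (v 0) = f (v 1)
  | i + 1, f, v => SR D i (fun x => D (f x) (f (v 0))) (Fin.tail v)

/-- The structure on `M` given by the order and `D`. -/
@[reducible] def struc {M : Type} [LE M] (D : M → M → M) : lang.Structure M where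
  funMap := fun f _ => Empty.elim f
  RelMap := fun {_} r => match r with
    | .le => fun v => v 0 ≤ v 1
    | .s i => fun v => SR D i id v

theorem SR_congr {M : Type} (D : M → M → M) : ∀ (i : ℕ) (f h : M → M) (v : Fin (i + 2) → M),
    (∀ k, f (v k) = h (v k)) → (SR D i f v ↔ SR D i h v)
  | 0, f, h, v, hv => by simp only [SR]; rw [hv 0, hv 1]
  | i + 1, f, h, v, hv => by
    simp only [SR]
    refine SR_congr D i _ _ _ fun k => ?_
    show D (f (v k.succ)) (f (v 0)) = D (h (v k.succ)) (h (v 0))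
    rw [hv, hv]

variable {M : Type} [LinearOrder M] [BoundedOrder M] {D : M → M → M}

/-- Graded automorphisms. -/
def IsAut (D : M → M → M) (g : ℕ → (M ≃o M)) : Prop :=
  ∀ i x y, g (i + 1) (D x y) = D (g i x) (g i y)

omit [BoundedOrder M] in
theorem IsAut.SR_iff {g : ℕ → (M ≃o M)} (hg : IsAut D g) : ∀ (i j : ℕ) (f f' : M → M),
    (∀ x, f' (g 0 x) = g j (f x)) → ∀ v : Fin (i + 2) → M,
    (SR D i f' (g 0 ∘ v) ↔ SR D i f v)
  | 0, j, f, f', hf, v => by
    simp only [SR, Function.comp]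
    rw [hf, hf, EmbeddingLike.apply_eq_iff_eq]
  | i + 1, j, f, f', hf, v => by
    simp only [SR]
    refine IsAut.SR_iff hg i (j + 1) _ _ (fun x => ?_) (Fin.tail v)
    show D (f' (g 0 x)) (f' (g 0 (v 0))) = g (j + 1) (D (f x) (f (v 0)))
    rw [hf, hf, hg]

/-- The automorphism of the structure given by a graded automorphism. -/
def IsAut.toEquiv {g : ℕ → (M ≃o M)} (hg : IsAut D g) :
    letI := struc D
    M ≃[lang] M :=
  letI := struc D
  { toEquiv := (g 0).toEquiv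
    map_fun' := fun {_} f _ => Empty.elim f
    map_rel' := by
      intro n r x
      cases r with
      | le => exact (g 0).le_iff_le
      | s i => exact hg.SR_iff i 0 id id (fun x => rfl) x }

omit [BoundedOrder M] in
theorem IsAut.comp {g h : ℕ → (M ≃o M)} (hg : IsAut D g) (hh : IsAut D h) :
    IsAut D fun i => (g i).trans (h i) := by
  intro i x y
  simp only [OrderIso.trans_apply]
  rw [hg, hh]

theorem exists_closed (hD : IsUM D) {A : Set M} (hA : A.Finite) :
    ∃ X : ℕ → Set M, Good D (idP X) ∧ A ⊆ X 0 := by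
  induction A, hA using Set.Finite.induction_on with
  | empty =>
    refine ⟨fun _ => {⊥, ⊤}, ⟨?_, ?_, ?_, ?_, ?_, ?_⟩, Set.empty_subset _⟩
    · intro i; exact ⟨Or.inl rfl, rfl⟩
    · intro i; exact ⟨Or.inr rfl, rfl⟩
    · rintro i a b a' b' ⟨_, h1⟩ ⟨_, h2⟩
      simp only at h1 h2
      rw [h1, h2]
    · rintro i a b a' b' ⟨h3, h1⟩ ⟨h4, h2⟩
      simp only at h1 h2 h3 h4
      subst h1 h2
      refine ⟨?_, rfl⟩
      by_cases hbt : (⊥ : M) = ⊤
      · have : Subsingleton M := subsingleton_of_bot_eq_top hbt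
        exact Or.inl (Subsingleton.elim _ _)
      rcases h3 with rfl | h3 <;> rcases h4 with rfl | h4
      · exact Or.inr (hD.self _)
      · rw [Set.mem_singleton_iff] at h4; subst h4
        exact Or.inl (hD.bot_left _ (Ne.symm hbt))
      · rw [Set.mem_singleton_iff] at h3; subst h3
        left
        show D ⊤ ⊥ = ⊥
        rw [hD.symm]
        exact hD.bot_left _ (Ne.symm hbt)
      · rw [Set.mem_singleton_iff] at h3 h4; subst h3 h4
        exact Or.inr (hD.self _)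
    · intro i
      refine ((Set.toFinite ({⊥, ⊤} : Set M)).image fun a => (a, a)).subset ?_
      rintro ⟨a, b⟩ ⟨h1, h2⟩
      simp only at h1 h2
      exact ⟨a, h1, by rw [h2]⟩
    · refine ⟨0, ?_⟩
      rintro i _ ⟨a, b⟩ ⟨h1, h2⟩
      simp only at h1 h2
      subst h2
      rcases h1 with rfl | h1
      · exact Or.inl rfl
      · rw [Set.mem_singleton_iff] at h1; subst h1
        exact Or.inr rfl
  | @insert a A _ _ ih =>
    obtain ⟨X, hX, hAX⟩ := ih
    obtain ⟨P, y, h1, h2, _, h4⟩ := hX.extend hD 0 a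
    refine ⟨_, h1.id_dom, ?_⟩
    rintro x (rfl | hx)
    · exact ⟨_, h4, rfl⟩
    · exact ⟨(x, x), h2 0 ⟨hAX hx, rfl⟩, rfl⟩

theorem cells_aut [Countable M] (hD : IsUM D) {A : Set M} (hA : A.Finite) :
    ∃ 𝒞 : Set (Set M), 𝒞.Finite ∧ (∀ C ∈ 𝒞, C.OrdConnected) ∧ (∀ x, ∃ C ∈ 𝒞, x ∈ C) ∧
      ∀ C ∈ 𝒞, ∀ x ∈ C, ∀ x' ∈ C, ∃ g, IsAut D g ∧ (∀ a ∈ A, g 0 a = a) ∧ g 0 x = x' := by
  obtain ⟨X, hX, hAX⟩ := exists_closed hD hA
  obtain ⟨𝒞, h1, h2, h3, h4⟩ := cells hD hX 0
  refine ⟨𝒞, h1, h2, h3, fun C hC x hx x' hx' => ?_⟩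
  obtain ⟨P, g1, g2, g3⟩ := h4 C hC x hx x' hx'
  obtain ⟨g, hg, hgP⟩ := g1.exists_aut hD
  exact ⟨g, hg, fun a ha => hgP 0 a a (g2 0 ⟨hAX ha, rfl⟩), hgP 0 x x' g3⟩

theorem finOrbits_graded [Countable M] (hD : IsUM D) : ∀ n, ∃ R : Set (Fin n → M), R.Finite ∧
    ∀ v : Fin n → M, ∃ g, IsAut D g ∧ (g 0 ∘ v) ∈ R := by
  intro n
  induction n with
  | zero =>
    refine ⟨Set.univ, Set.toFinite _, fun v => ⟨fun _ => OrderIso.refl M, fun _ _ _ => rfl,
      trivial⟩⟩
  | succ n ih =>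
    obtain ⟨R, hR, hRv⟩ := ih
    choose 𝒞 h1 h2 h3 h4 using fun r : Fin n → M => cells_aut hD (Set.finite_range r)
    classical
    let rep : Set M → M := fun C => if h : C.Nonempty then h.choose else ⊥
    have hrep : ∀ C x, x ∈ C → rep C ∈ C := by
      intro C x hx
      have h : C.Nonempty := ⟨x, hx⟩
      simp only [rep, dif_pos h]
      exact h.choose_spec
    refine ⟨⋃ r ∈ R, (fun C => (Fin.cons (rep C) r : Fin (n + 1) → M)) '' (𝒞 r),
      hR.biUnion fun r _ => (h1 r).image _, fun v => ?_⟩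
    obtain ⟨g, hg, hgv⟩ := hRv (Fin.tail v)
    obtain ⟨C, hC, hC'⟩ := h3 (g 0 ∘ Fin.tail v) (g 0 (v 0))
    obtain ⟨k, hk, hk1, hk2⟩ := h4 _ C hC _ hC' (rep C) (hrep C _ hC')
    refine ⟨_, hg.comp hk, Set.mem_biUnion hgv ⟨C, hC, ?_⟩⟩
    funext i
    refine Fin.cases ?_ (fun i => ?_) i
    · simp only [Fin.cons_zero, Function.comp, OrderIso.trans_apply]
      exact hk2.symm
    · simp only [Fin.cons_succ, Function.comp, OrderIso.trans_apply, Fin.tail]
      exact (hk1 _ ⟨i, rfl⟩).symm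

theorem finOrbits [Countable M] (hD : IsUM D) :
    letI := struc D
    FinOrbits lang M := by
  intro n
  obtain ⟨R, hR, hRv⟩ := finOrbits_graded hD n
  refine ⟨R, hR, fun v => ?_⟩
  obtain ⟨g, hg, hgv⟩ := hRv v
  exact ⟨hg.toEquiv, hgv⟩

theorem countablyCategorical [Countable M] (hD : IsUM D) :
    @CountablyCategorical lang M (struc D) := by
  let _ := struc D
  have : Nonempty M := ⟨⊥⟩
  exact categorical_of_finOrbits (finOrbits hD)

theorem weaklyOMinimal [Countable M] (hD : IsUM D) :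
    @WeaklyOMinimal lang M _ (struc D) := by
  let _ := struc D
  intro S hS
  have hS' : (Set.univ : Set M).Definable lang {x : Fin 1 → M | x 0 ∈ S} := hS
  rw [Set.definable_iff_finitely_definable] at hS'
  obtain ⟨A, _, hA⟩ := hS'
  rw [Set.definable_iff_exists_formula_sum] at hA
  obtain ⟨φ, hφ⟩ := hA
  obtain ⟨𝒞, h1, h2, h3, h4⟩ := cells_aut hD (A.finite_toSet)
  have hmem : ∀ x, x ∈ S ↔ φ.Realize (Sum.elim (fun a : (A : Set M) => (a : M))
      (fun _ : Fin 1 => x)) := by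
    intro x
    exact Set.ext_iff.1 hφ (fun _ => x)
  have hinv : ∀ g, IsAut D g → (∀ a ∈ (A : Set M), g 0 a = a) → ∀ x, x ∈ S ↔ g 0 x ∈ S := by
    intro g hg hgA x
    rw [hmem, hmem, ← StrongHomClass.realize_formula hg.toEquiv φ]
    have : (hg.toEquiv ∘ (Sum.elim (fun a : (A : Set M) => (a : M)) (fun _ : Fin 1 => x))) =
        (Sum.elim (fun a : (A : Set M) => (a : M)) (fun _ : Fin 1 => g 0 x)) := by
      funext i
      rcases i with a | i
      · exact hgA a a.2
      · rfl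
    rw [this]
  refine ⟨{C | C ∈ 𝒞 ∧ (C ∩ S).Nonempty}, h1.subset fun C h => h.1, fun C h => h2 C h.1, ?_⟩
  ext x
  constructor
  · rintro ⟨C, ⟨hC, y, hyC, hyS⟩, hx⟩
    obtain ⟨g, hg, hgA, hgx⟩ := h4 C hC y hyC x hx
    rw [← hgx]
    exact (hinv g hg hgA y).1 hyS
  · intro hx
    obtain ⟨C, hC, hxC⟩ := h3 x
    exact ⟨C, ⟨hC, x, hxC, hx⟩, hxC⟩

end Pool.Agent.Lib.MP_b29b59_lc
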